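import Pool.Agent.H90.Pre.Iden
import Pool.Agent.H72.Cardy.PreSol

/-! MP_fe58d8_pr, CAR-B1: `exists_PreSol`. -/

set_option autoImplicit false
open Finset Pool.Agent.H75.Exact MvPolynomial
open Pool.Agent.H72.Cardy (A cap X' pp PreSol PolyData)

namespace Pool.Agent.H90.Pre

/-! ### lists and functions -/

/-- the function attached to a list -/
noncomputable def uf (zs : List ℂ) (j : ℕ) : ℂ := (0 :: zs).getD j 0

/-- the set attached to a configuration -/
def Ds (s : List Bool) : Finset ℕ :=
  (range (s.length + 1)).filter fun j => (false :: s).getD j false = true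

lemma mem_Ds {s : List Bool} {j : ℕ} : j ∈ Ds s ↔ (false :: s).getD j false = true := by
  unfold Ds
  rw [mem_filter, mem_range]
  constructor
  · exact fun h => h.2
  · intro h
    refine ⟨?_, h⟩
    by_contra hlt
    rw [List.getD_eq_default _ _ (by simp only [List.length_cons]; omega)] at h
    exact absurd h (by simp)

lemma Ds_subset (s : List Bool) : Ds s ⊆ Icc 1 s.length := by
  intro j hj
  have h1 : j < s.length + 1 := by
    unfold Ds at hj
    rw [mem_filter, mem_range] at hj
    exact hj.1
  rw [mem_Ds] at hj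
  rw [mem_Icc]
  refine ⟨?_, by omega⟩
  by_contra h0
  have : j = 0 := by omega
  subst this
  simp at hj

lemma card_filter_getD (s : List Bool) :
    ((range s.length).filter fun j => s.getD j false = true).card = s.count true := by
  induction s using List.reverseRecOn with
  | nil => simp
  | append_singleton s b ih =>
    rw [List.length_append, List.length_singleton, Finset.range_add_one, filter_insert]
    have e : (range s.length).filter (fun j => (s ++ [b]).getD j false = true) =
        (range s.length).filter fun j => s.getD j false = true := by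
      apply filter_congr
      intro j hj
      rw [mem_range] at hj
      rw [List.getD_append _ _ _ _ hj]
    have e2 : (s ++ [b]).getD s.length false = b := by
      rw [List.getD_append_right _ _ _ _ le_rfl]; simp
    rw [e, e2, List.count_append]
    cases b
    · rw [if_neg (by simp), ih]; simp
    · rw [if_pos rfl, card_insert_of_notMem (by simp), ih]; simp

lemma Ds_card (s : List Bool) : (Ds s).card = s.count true := by
  have := card_filter_getD (false :: s)
  rw [List.length_cons] at this
  unfold Ds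
  rw [this]
  simp

lemma getD_swap {α : Type*} (d : α) (L R : List α) (x y : α) (j : ℕ) :
    (L ++ y :: x :: R).getD j d =
      (L ++ x :: y :: R).getD (Equiv.swap L.length (L.length + 1) j) d := by
  rw [Equiv.swap_apply_def]
  split_ifs with h1 h2
  · subst h1
    rw [List.getD_append_right _ _ _ _ le_rfl, List.getD_append_right _ _ _ _ (by omega)]
    simp
  · subst h2
    rw [List.getD_append_right _ _ _ _ (by omega), List.getD_append_right _ _ _ _ le_rfl]
    simp
  · by_cases hlt : j < L.length
    · rw [List.getD_append _ _ _ _ hlt, List.getD_append _ _ _ _ hlt]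
    · rw [List.getD_append_right _ _ _ _ (by omega), List.getD_append_right _ _ _ _ (by omega)]
      obtain ⟨k, hk⟩ : ∃ k, j - L.length = k + 2 := ⟨j - L.length - 2, by omega⟩
      rw [hk]
      simp

lemma uf_sw (l₁ l₂ : List ℂ) (x y : ℂ) :
    uf (l₁ ++ y :: x :: l₂) = sw (uf (l₁ ++ x :: y :: l₂)) (l₁.length + 1) := by
  funext j
  exact getD_swap 0 (0 :: l₁) l₂ x y j

lemma uf_first (l₁ l₂ : List ℂ) (x : ℂ) : uf (l₁ ++ x :: l₂) (l₁.length + 1) = x := by
  change ((0 :: l₁) ++ x :: l₂).getD (l₁.length + 1) 0 = x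
  rw [List.getD_append_right _ _ _ _ (by simp)]
  simp

lemma uf_second (l₁ l₂ : List ℂ) (x y : ℂ) :
    uf (l₁ ++ x :: y :: l₂) (l₁.length + 1 + 1) = y := by
  have := uf_first (l₁ ++ [x]) l₂ y
  simpa using this

lemma Ds_mem_first (s t : List Bool) (c d : Bool) :
    s.length + 1 ∈ Ds (s ++ c :: d :: t) ↔ c = true := by
  rw [mem_Ds]
  change ((false :: s) ++ c :: d :: t).getD (s.length + 1) false = true ↔ _
  rw [List.getD_append_right _ _ _ _ (by simp)]
  simp

lemma Ds_mem_second (s t : List Bool) (c d : Bool) :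
    s.length + 1 + 1 ∈ Ds (s ++ c :: d :: t) ↔ d = true := by
  rw [mem_Ds]
  change ((false :: s) ++ c :: d :: t).getD (s.length + 1 + 1) false = true ↔ _
  rw [List.getD_append_right _ _ _ _ (by simp)]
  simp

lemma Ds_mem_other (s t : List Bool) (c d c' d' : Bool) {j : ℕ} (h1 : j ≠ s.length + 1)
    (h2 : j ≠ s.length + 1 + 1) :
    j ∈ Ds (s ++ c :: d :: t) ↔ j ∈ Ds (s ++ c' :: d' :: t) := by
  rw [mem_Ds, mem_Ds]
  change ((false :: s) ++ c :: d :: t).getD j false = true ↔
    ((false :: s) ++ c' :: d' :: t).getD j false = true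
  by_cases hlt : j < (false :: s).length
  · rw [List.getD_append _ _ _ _ hlt, List.getD_append _ _ _ _ hlt]
  · rw [List.getD_append_right _ _ _ _ (by omega), List.getD_append_right _ _ _ _ (by omega)]
    rw [List.length_cons] at hlt ⊢
    obtain ⟨k, hk⟩ : ∃ k, j - (s.length + 1) = k + 2 := ⟨j - (s.length + 1) - 2, by omega⟩
    rw [hk]
    simp

lemma Ds_tf (s t : List Bool) :
    insert (s.length + 1 + 1) ((Ds (s ++ true :: false :: t)).erase (s.length + 1)) =
      Ds (s ++ false :: true :: t) := by
  ext j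
  rw [mem_insert, mem_erase]
  by_cases h1 : j = s.length + 1
  · subst h1
    rw [Ds_mem_first s t false true]
    simp
  · by_cases h2 : j = s.length + 1 + 1
    · subst h2
      rw [Ds_mem_second, Ds_mem_second]
      simp
    · rw [Ds_mem_other s t true false false true h1 h2]
      simp [h1, h2]

lemma Ds_ft (s t : List Bool) :
    insert (s.length + 1) ((Ds (s ++ false :: true :: t)).erase (s.length + 1 + 1)) =
      Ds (s ++ true :: false :: t) := by
  ext j
  rw [mem_insert, mem_erase]
  by_cases h1 : j = s.length + 1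
  · subst h1
    rw [Ds_mem_first, Ds_mem_first]
    simp
  · by_cases h2 : j = s.length + 1 + 1
    · subst h2
      rw [Ds_mem_second s t true false]
      simp
    · rw [Ds_mem_other s t false true true false h1 h2]
      simp [h1, h2]

/-! ### products -/

lemma prod_list (L l R : List ℂ) (h : ℂ → ℂ) :
    ∏ b ∈ Icc L.length (L.length + l.length - 1), h ((L ++ l ++ R).getD b 0) =
      (l.map h).prod ∨ L.length = 0 := by
  by_cases hL : L.length = 0
  · exact Or.inr hL
  left
  induction l generalizing L with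
  | nil =>
    rw [Finset.Icc_eq_empty (by simp; omega)]
    simp
  | cons x l ih =>
    have e1 : Icc L.length (L.length + (x :: l).length - 1) =
        insert L.length (Icc (L ++ [x]).length ((L ++ [x]).length + l.length - 1)) := by
      ext j
      simp only [mem_Icc, mem_insert, List.length_append, List.length_cons, List.length_nil]
      omega
    have e0 : L.length ∉ Icc (L ++ [x]).length ((L ++ [x]).length + l.length - 1) := by
      simp only [mem_Icc, List.length_append, List.length_cons, List.length_nil]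
      omega
    rw [e1, prod_insert e0]
    have e2 := ih (L ++ [x]) (by simp)
    rw [show L ++ [x] ++ l ++ R = L ++ (x :: l) ++ R by simp] at e2
    rw [e2, List.map_cons, List.prod_cons]
    congr 2
    rw [List.append_assoc, List.getD_append_right _ _ _ _ le_rfl]
    simp

lemma prod_list' (L l R : List ℂ) (h : ℂ → ℂ) (hL : 1 ≤ L.length) {m : ℕ}
    (hm : m + 1 = L.length + l.length) :
    ∏ b ∈ Icc L.length m, h ((L ++ l ++ R).getD b 0) = (l.map h).prod := by
  have := (prod_list L l R h).resolve_right (by omega)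
  rw [← this]
  congr 2
  omega

lemma PP_list (f : ℂ → ℂ → ℂ) (l L R : List ℂ) (c m : ℕ) (hL : c + 1 = L.length)
    (hm : m + 1 = L.length + l.length) :
    PP (fun a b => f ((L ++ l ++ R).getD a 0) ((L ++ l ++ R).getD b 0)) c m = pp f l := by
  induction l generalizing L c with
  | nil =>
    unfold PP
    rw [Finset.Icc_eq_empty (by simp at hm; omega)]
    simp [pp]
  | cons x l ih =>
    have hm' : m + 1 = (L ++ [x]).length + l.length := by
      rw [hm]; simp; omega
    have e2 := ih (L ++ [x]) (c + 1) (by simp [hL]) hm'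
    rw [show L ++ [x] ++ l ++ R = L ++ (x :: l) ++ R by simp] at e2
    unfold PP at e2 ⊢
    have e1 : Icc (c + 1) m = insert (c + 1) (Icc (c + 1 + 1) m) := by
      ext j
      simp only [mem_Icc, mem_insert]
      simp only [List.length_append, List.length_singleton] at hm'
      omega
    rw [e1, prod_insert (by simp), e2, pp]
    congr 1
    beta_reduce
    have e3 : (L ++ (x :: l) ++ R).getD (c + 1) 0 = x := by
      rw [hL, List.append_assoc, List.getD_append_right _ _ _ _ le_rfl]
      simp
    rw [e3]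
    have e4 := prod_list' (L ++ [x]) l R (f x) (by simp) hm'
    rw [show L ++ [x] ++ l ++ R = L ++ (x :: l) ++ R by simp] at e4
    rw [← e4]
    congr 2
    simp [hL]

lemma pp_div (f : ℂ → ℂ → ℂ) (l : List ℂ) (hl : ∀ z ∈ l, z ≠ 0) :
    pp (fun x y => f x y / (x * y)) l * l.prod ^ l.length = pp f l * l.prod := by
  induction l with
  | nil => simp [pp]
  | cons x l ih =>
    have hx := hl x (by simp)
    have ih' := ih fun z hz => hl z (by simp [hz])
    have hP : l.prod ≠ 0 := List.prod_ne_zero fun h => hl 0 (by simp [h]) rfl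
    simp only [pp, List.prod_cons, List.length_cons]
    have e1 : (l.map fun y => f x y / (x * y)).prod * (x ^ l.length * l.prod) =
        (l.map (f x)).prod := by
      clear ih ih' hP
      induction l with
      | nil => simp
      | cons y l ih =>
        have hy := hl y (by simp)
        have := ih (fun z hz => hl z (by
          rw [List.mem_cons] at hz ⊢
          rcases hz with h | h
          · exact Or.inl h
          · exact Or.inr (by simp [h])))
        simp only [List.map_cons, List.prod_cons, List.length_cons, pow_succ]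
        rw [← this]
        field_simp
    rw [← e1, mul_pow, pow_succ, pow_succ]
    linear_combination ((l.map fun y => f x y / (x * y)).prod * x ^ l.length * x * l.prod) * ih'

lemma pp_congr {f g : ℂ → ℂ → ℂ} (l : List ℂ) (hl : ∀ z ∈ l, z ≠ 0)
    (h : ∀ x y, x ≠ 0 → y ≠ 0 → f x y = g x y) : pp f l = pp g l := by
  induction l with
  | nil => rfl
  | cons x l ih =>
    simp only [pp]
    rw [ih fun z hz => hl z (by simp [hz])]
    congr 2
    apply List.map_congr_left
    intro y hy
    exact h x y (hl x (by simp)) (hl y (by simp [hy]))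

/-! ### the family -/

/-- the polynomial inhomogeneous ground state -/
noncomputable def Phi (q a : ℂ) (zs : List ℂ) (s : List Bool) : ℂ :=
  if s.length = zs.length ∧ zs.length = 2 * s.count true + 1 then
    (zs.prod ^ (s.count true))⁻¹ *
      ev (uf zs) (PD q (a ^ (s.count true) / K0 q (s.count true)) (s.count true) (Ds s))
  else 0

lemma Phi_pos {q a : ℂ} {zs : List ℂ} {s : List Bool} (n : ℕ) (h1 : s.length = 2 * n + 1)
    (h2 : zs.length = 2 * n + 1) (h3 : s.count true = n) :
    Phi q a zs s = (zs.prod ^ n)⁻¹ * ev (uf zs) (PD q (a ^ n / K0 q n) n (Ds s)) := by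
  subst h3
  unfold Phi
  rw [if_pos ⟨by omega, h2⟩]

lemma Phi_neg {q a : ℂ} {zs : List ℂ} {s : List Bool}
    (h : ¬ (s.length = zs.length ∧ zs.length = 2 * s.count true + 1)) : Phi q a zs s = 0 := by
  unfold Phi
  rw [if_neg h]

lemma a_facts {q a : ℂ} (hq : q ^ 2 + q + 1 = 0) (ha : a ^ 2 = - q ^ 2) :
    a ≠ 0 ∧ a⁻¹ * a⁻¹ = -q ∧ a * a = -q⁻¹ := by
  have h3 := q3 hq
  have h0 := q_ne hq
  have ha0 : a ≠ 0 := by
    rintro rfl
    have : q ^ 2 = 0 := by linear_combination ha
    exact pow_ne_zero 2 h0 this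
  have hqi : q⁻¹ = q ^ 2 := by
    rw [inv_eq_iff_eq_inv]
    apply eq_inv_of_mul_eq_one_left
    linear_combination h3
  refine ⟨ha0, ?_, ?_⟩
  · rw [← mul_inv, ← sq, ha]
    rw [inv_eq_iff_eq_inv]
    apply eq_inv_of_mul_eq_one_left
    linear_combination h3
  · rw [← sq, ha, hqi]

lemma A_cap {q a : ℂ} (hq : q ^ 2 + q + 1 = 0) (ha : a ^ 2 = - q ^ 2) (V : List Bool → ℂ)
    (F : Finset ℕ → ℂ) (r : ℂ) (s t : List Bool) (c d : Bool)
    (hV : ∀ s' : List Bool, s'.length = (s ++ c :: d :: t).length →
      s'.count true = (s ++ c :: d :: t).count true → V s' = r * F (Ds s')) :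
    A a c d * cap a V s t = r * E q (s.length + 1) F (Ds (s ++ c :: d :: t)) := by
  obtain ⟨ha0, h1, h2⟩ := a_facts hq ha
  have ha1 : a⁻¹ * a = 1 := inv_mul_cancel₀ ha0
  unfold E cap
  simp only [Ds_mem_first, Ds_mem_second]
  cases c <;> cases d
  · simp [A]
  · rw [if_neg (by simp), if_pos rfl, Ds_ft, hV _ (by simp) (by simp [List.count_append]),
      hV _ (by simp) (by simp [List.count_append])]
    simp only [A]
    linear_combination (r * F (Ds (s ++ true :: false :: t))) * ha1 +
      (r * F (Ds (s ++ false :: true :: t))) * h2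
  · rw [if_pos rfl, if_neg (by simp), Ds_tf, hV _ (by simp) (by simp [List.count_append]),
      hV _ (by simp) (by simp [List.count_append])]
    simp only [A]
    linear_combination (r * F (Ds (s ++ false :: true :: t))) * ha1 +
      (r * F (Ds (s ++ true :: false :: t))) * h1
  · simp [A]

theorem Phi_exch {q a : ℂ} (hq : q ^ 2 + q + 1 = 0) (ha : a ^ 2 = - q ^ 2) (l₁ : List ℂ)
    (x y : ℂ) (l₂ : List ℂ) (s : List Bool) (c d : Bool) (t : List Bool)
    (hs : s.length = l₁.length) (ht : t.length = l₂.length) :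
    (q * y - q⁻¹ * x) * Phi q a (l₁ ++ y :: x :: l₂) (s ++ c :: d :: t) =
      (q * x - q⁻¹ * y) * Phi q a (l₁ ++ x :: y :: l₂) (s ++ c :: d :: t) +
      (x - y) * (A a c d * cap a (Phi q a (l₁ ++ x :: y :: l₂)) s t) := by
  have h3 := q3 hq
  have hqi : q⁻¹ = q ^ 2 := by
    rw [inv_eq_iff_eq_inv]
    apply eq_inv_of_mul_eq_one_left
    linear_combination h3
  by_cases hcond : (s ++ c :: d :: t).length = 2 * (s ++ c :: d :: t).count true + 1
  · obtain ⟨n, hn⟩ : ∃ n, n = (s ++ c :: d :: t).count true := ⟨_, rfl⟩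
    rw [← hn] at hcond
    have hlen : (l₁ ++ x :: y :: l₂).length = 2 * n + 1 := by
      rw [← hcond]; simp [hs, ht]
    have hlen' : (l₁ ++ y :: x :: l₂).length = 2 * n + 1 := by
      rw [← hcond]; simp [hs, ht]
    have hprod : (l₁ ++ y :: x :: l₂).prod = (l₁ ++ x :: y :: l₂).prod := by
      simp only [List.prod_append, List.prod_cons]; ring
    rw [Phi_pos n hcond hlen' hn.symm, Phi_pos n hcond hlen hn.symm, hprod]
    rw [A_cap hq ha _ (fun D => ev (uf (l₁ ++ x :: y :: l₂)) (PD q (a ^ n / K0 q n) n D))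
      ((l₁ ++ x :: y :: l₂).prod ^ n)⁻¹ s t c d
      (fun s' h1 h2 => Phi_pos n (h1.trans hcond) hlen (h2.trans hn.symm))]
    have hsub := Ds_subset (s ++ c :: d :: t)
    rw [hcond] at hsub
    have hcard := (Ds_card (s ++ c :: d :: t)).trans hn.symm
    have hN : s.length + 1 < 2 * n + 1 := by
      rw [← hcond]; simp
    have hex := PD_exch hq (a ^ n / K0 q n) hsub hcard (i := s.length + 1) (by omega) hN
      (uf (l₁ ++ x :: y :: l₂))
    rw [hs] at hex ⊢
    rw [uf_first, uf_second, ← uf_sw] at hex
    rw [hqi]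
    set Y := ev (uf (l₁ ++ y :: x :: l₂)) (PD q (a ^ n / K0 q n) n (Ds (s ++ c :: d :: t)))
    set Z := ev (uf (l₁ ++ x :: y :: l₂)) (PD q (a ^ n / K0 q n) n (Ds (s ++ c :: d :: t)))
    set W := E q (l₁.length + 1)
      (fun D => ev (uf (l₁ ++ x :: y :: l₂)) (PD q (a ^ n / K0 q n) n D))
      (Ds (s ++ c :: d :: t))
    set P := ((l₁ ++ x :: y :: l₂).prod ^ n)⁻¹
    linear_combination (-q ^ 2 * P) * hex + (-(P * (q * y * Y)) + P * (q * x * Z) +
      P * (x - y) * W) * h3
  · have hz : ∀ zs : List ℂ, zs.length = (s ++ c :: d :: t).length → ∀ s' : List Bool,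
        s'.count true = (s ++ c :: d :: t).count true → Phi q a zs s' = 0 := by
      intro zs hzs s' hs'
      apply Phi_neg
      rintro ⟨-, h⟩
      exact hcond (by rw [← hzs, h, hs'])
    have e1 : (l₁ ++ x :: y :: l₂).length = (s ++ c :: d :: t).length := by simp [hs, ht]
    have e2 : (l₁ ++ y :: x :: l₂).length = (s ++ c :: d :: t).length := by simp [hs, ht]
    rw [hz _ e1 _ rfl, hz _ e2 _ rfl]
    have e3 : A a c d * cap a (Phi q a (l₁ ++ x :: y :: l₂)) s t = 0 := by
      cases c <;> cases d
      · simp [A]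
      · unfold cap
        rw [hz _ e1 _ (by simp [List.count_append]), hz _ e1 _ (by simp [List.count_append])]
        simp
      · unfold cap
        rw [hz _ e1 _ (by simp [List.count_append]), hz _ e1 _ (by simp [List.count_append])]
        simp
      · simp [A]
    rw [e3]
    simp

theorem Phi_top {q a : ℂ} (hq : q ^ 2 + q + 1 = 0) (l₁ l₂ : List ℂ)
    (hl : l₁.length = l₂.length + 1) (h0 : ∀ z ∈ l₁ ++ l₂, z ≠ 0) :
    Phi q a (l₁ ++ l₂) (List.replicate l₁.length false ++ List.replicate l₂.length true) =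
      a ^ l₂.length * pp (fun x y => X' x - X' (q⁻¹ * y)) l₁ *
        pp (fun x y => X' y - X' (q * x)) l₂ := by
  have h3 := q3 hq
  have hq0 := q_ne hq
  have hqi : q⁻¹ = q ^ 2 := by
    rw [inv_eq_iff_eq_inv]
    apply eq_inv_of_mul_eq_one_left
    linear_combination h3
  set n := l₂.length with hn
  have hc : (List.replicate l₁.length false ++ List.replicate n true).count true = n := by
    rw [List.count_append, List.count_replicate, List.count_replicate]; simp
  rw [Phi_pos n (by simp; omega) (by simp; omega) hc]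
  have hDs : Ds (List.replicate l₁.length false ++ List.replicate n true) =
      Icc (n + 2) (2 * n + 1) := by
    ext j
    rw [mem_Ds, mem_Icc]
    change ((false :: List.replicate l₁.length false) ++ List.replicate n true).getD j false =
      true ↔ _
    by_cases hlt : j < (false :: List.replicate l₁.length false).length
    · rw [List.getD_append _ _ _ _ hlt]
      rw [← List.replicate_succ] at hlt ⊢
      rw [List.getD_eq_getElem _ _ hlt, List.getElem_replicate]
      simp only [List.length_replicate] at hlt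
      simp only [Bool.false_eq_true, false_iff]
      omega
    · rw [List.getD_append_right _ _ _ _ (by omega)]
      simp only [List.length_cons, List.length_replicate] at hlt ⊢
      by_cases h2 : j - (l₁.length + 1) < n
      · rw [List.getD_eq_getElem _ _ (by simpa using h2), List.getElem_replicate]
        simp only [true_iff]
        omega
      · rw [List.getD_eq_default _ _ (by simp; omega)]
        simp only [Bool.false_eq_true, false_iff]
        omega
  rw [hDs, PD_top hq]
  unfold topv
  rw [div_mul_cancel₀ _ (K0_ne hq n)]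
  have p1 := PP_list (ff q) l₁ [0] l₂ 0 (n + 1) (by simp) (by simp; omega)
  have p2 := PP_list (gg q) l₂ (0 :: l₁) [] (n + 1) (2 * n + 1) (by simp; omega) (by simp; omega)
  have p3 := prod_list' (0 :: l₁) l₂ [] id (by simp) (m := 2 * n + 1) (by simp; omega)
  rw [List.append_nil, List.map_id] at p3
  rw [List.append_nil] at p2
  have e1 : (0 :: l₁).length = n + 2 := by simp; omega
  rw [e1] at p3
  change PP (fun a b => ff q (uf (l₁ ++ l₂) a) (uf (l₁ ++ l₂) b)) 0 (n + 1) = _ at p1
  change PP (fun a b => gg q (uf (l₁ ++ l₂) a) (uf (l₁ ++ l₂) b)) (n + 1) (2 * n + 1) = _ at p2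
  change ∏ a ∈ Icc (n + 2) (2 * n + 1), uf (l₁ ++ l₂) a = _ at p3
  rw [p1, p2, p3]
  have h01 : ∀ z ∈ l₁, z ≠ 0 := fun z hz => h0 z (by simp [hz])
  have h02 : ∀ z ∈ l₂, z ≠ 0 := fun z hz => h0 z (by simp [hz])
  have d1 := pp_div (ff q) l₁ h01
  have d2 := pp_div (gg q) l₂ h02
  have c1 : pp (fun x y => ff q x y / (x * y)) l₁ = pp (fun x y => X' x - X' (q⁻¹ * y)) l₁ := by
    apply pp_congr l₁ h01
    intro x y hx hy
    unfold ff X'
    rw [mul_inv, inv_inv, hqi]
    field_simp
    linear_combination y * h3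
  have c2 : pp (fun x y => gg q x y / (x * y)) l₂ = pp (fun x y => X' y - X' (q * x)) l₂ := by
    apply pp_congr l₂ h02
    intro x y hx hy
    unfold gg X'
    rw [mul_inv, hqi]
    field_simp
    linear_combination (x * y ^ 2 + x - q ^ 2 * y) * h3
  rw [c1, hl] at d1
  rw [c2, ← hn] at d2
  have hP1 : l₁.prod ≠ 0 := List.prod_ne_zero fun h => h01 0 h rfl
  have hP2 : l₂.prod ≠ 0 := List.prod_ne_zero fun h => h02 0 h rfl
  rw [List.prod_append]
  rw [pow_succ, ← mul_assoc] at d1
  have d1' := mul_right_cancel₀ hP1 d1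
  rw [← d1', mul_assoc (a ^ n * _), ← d2, mul_pow]
  have hP1' : l₁.prod ^ n ≠ 0 := pow_ne_zero _ hP1
  have hP2' : l₂.prod ^ n ≠ 0 := pow_ne_zero _ hP2
  field_simp

theorem Phi_even_first {q a : ℂ} (hq : q ^ 2 + q + 1 = 0) (x : ℂ) (l : List ℂ) (s : List Bool)
    (hx : x ≠ 0) : Phi q a (x⁻¹ :: l) s = Phi q a (x :: l) s := by
  by_cases hcond : s.length = (x :: l).length ∧ (x :: l).length = 2 * s.count true + 1
  · obtain ⟨n, hn⟩ : ∃ n, n = s.count true := ⟨_, rfl⟩
    obtain ⟨h1, h2⟩ := hcond
    rw [← hn] at h2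
    rw [Phi_pos n (h1.trans h2) h2 hn.symm, Phi_pos n (h1.trans h2) (by simpa using h2) hn.symm]
    have hsub := Ds_subset s
    rw [h1.trans h2] at hsub
    have hcard := (Ds_card s).trans hn.symm
    have key := PD_left hq (a ^ n / K0 q n) hsub hcard
      (fun i : Fin (2 * n + 1) => uf (x :: l) (i + 1)) (by simpa [uf] using hx)
    have e1 : Function.update (fun i : Fin (2 * n + 1) => uf (x :: l) ((i : ℕ) + 1)) 0
        (uf (x :: l) (((0 : Fin (2 * n + 1)) : ℕ) + 1))⁻¹ =
        fun i : Fin (2 * n + 1) => uf (x⁻¹ :: l) ((i : ℕ) + 1) := by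
      funext i
      by_cases hi : i = 0
      · subst hi
        rw [Function.update_self]
        simp [uf]
      · rw [Function.update_of_ne hi]
        have : (i : ℕ) ≠ 0 := fun h => hi (Fin.ext h)
        obtain ⟨k, hk⟩ := Nat.exists_eq_succ_of_ne_zero this
        rw [hk]
        simp [uf]
    beta_reduce at key
    rw [e1] at key
    have e2 : uf (x :: l) (((0 : Fin (2 * n + 1)) : ℕ) + 1) = x := by simp [uf]
    rw [e2] at key
    unfold ev
    have e3 : x ^ (2 * n) = x ^ n * x ^ n := by rw [two_mul, pow_add]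
    rw [key, List.prod_cons, List.prod_cons, mul_pow, mul_pow, mul_inv, mul_inv, inv_pow, inv_inv,
      e3]
    have hxn : x ^ n ≠ 0 := pow_ne_zero _ hx
    field_simp
  · rw [Phi_neg hcond, Phi_neg (by simpa using hcond)]

theorem Phi_even_last {q a : ℂ} (hq : q ^ 2 + q + 1 = 0) (l : List ℂ) (x : ℂ) (s : List Bool)
    (hx : x ≠ 0) : Phi q a (l ++ [x⁻¹]) s = Phi q a (l ++ [x]) s := by
  by_cases hcond : s.length = (l ++ [x]).length ∧ (l ++ [x]).length = 2 * s.count true + 1
  · obtain ⟨n, hn⟩ : ∃ n, n = s.count true := ⟨_, rfl⟩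
    obtain ⟨h1, h2⟩ := hcond
    rw [← hn] at h2
    rw [Phi_pos n (h1.trans h2) h2 hn.symm, Phi_pos n (h1.trans h2) (by simpa using h2) hn.symm]
    have hl : l.length = 2 * n := by simpa using h2
    have hsub := Ds_subset s
    rw [h1.trans h2] at hsub
    have hcard := (Ds_card s).trans hn.symm
    have e2 : ∀ x : ℂ, uf (l ++ [x]) (2 * n + 1) = x := by
      intro x
      rw [← hl]
      exact uf_first l [] x
    have key := PD_right hq (a ^ n / K0 q n) hsub hcard
      (fun i : Fin (2 * n + 1) => uf (l ++ [x]) (i + 1)) (by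
        simp only [Fin.val_last]; rw [e2]; exact hx)
    have e1 : Function.update (fun i : Fin (2 * n + 1) => uf (l ++ [x]) ((i : ℕ) + 1))
        (Fin.last (2 * n)) (uf (l ++ [x]) (((Fin.last (2 * n)) : ℕ) + 1))⁻¹ =
        fun i : Fin (2 * n + 1) => uf (l ++ [x⁻¹]) ((i : ℕ) + 1) := by
      funext i
      by_cases hi : i = Fin.last (2 * n)
      · subst hi
        rw [Function.update_self, Fin.val_last, e2, e2]
      · rw [Function.update_of_ne hi]
        have h3 : (i : ℕ) ≠ 2 * n := fun h => hi (Fin.ext (by rw [Fin.val_last]; exact h))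
        have h4 : (i : ℕ) < l.length := by have := i.2; omega
        change (0 :: (l ++ [x])).getD ((i : ℕ) + 1) 0 = (0 :: (l ++ [x⁻¹])).getD ((i : ℕ) + 1) 0
        rw [List.getD_cons_succ, List.getD_cons_succ, List.getD_append _ _ _ _ h4,
          List.getD_append _ _ _ _ h4]
    beta_reduce at key
    rw [e1] at key
    rw [Fin.val_last, e2] at key
    unfold ev
    have e3 : x ^ (2 * n) = x ^ n * x ^ n := by rw [two_mul, pow_add]
    rw [key, List.prod_append, List.prod_append, List.prod_singleton, List.prod_singleton,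
      mul_pow, mul_pow, mul_inv, mul_inv, inv_pow, inv_inv, e3]
    have hxn : x ^ n ≠ 0 := pow_ne_zero _ hx
    field_simp
  · rw [Phi_neg hcond, Phi_neg (by simpa using hcond)]

theorem Phi_poly (q a : ℂ) : PolyData (Phi q a) := by
  intro n s
  by_cases hcond : s.length = 2 * n + 1 ∧ s.count true = n
  · refine ⟨PD q (a ^ n / K0 q n) n (Ds s), PD_deg _ _ _ _, fun z hz => ?_⟩
    rw [Phi_pos n hcond.1 (by simp) hcond.2, List.prod_ofFn]
    have hP : (∏ i, z i) ^ n ≠ 0 := pow_ne_zero _ (Finset.prod_ne_zero_iff.2 fun i _ => hz i)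
    rw [mul_inv_cancel_left₀ hP]
    unfold ev
    refine congrArg (fun f => eval f _) (funext fun i => ?_)
    change (0 :: List.ofFn z).getD ((i : ℕ) + 1) 0 = z i
    rw [List.getD_cons_succ, List.getD_eq_getElem _ _ (by simp; omega), List.getElem_ofFn]
  · refine ⟨0, fun i => by rw [degreeOf_zero]; omega, fun z _ => ?_⟩
    rw [Phi_neg, mul_zero, map_zero]
    rintro ⟨h1, h2⟩
    rw [List.length_ofFn] at h1 h2
    exact hcond ⟨h1, by omega⟩

/-- CAR-B1 -/
theorem exists_PreSol (q a : ℂ) (hq : q ^ 2 + q + 1 = 0) (ha : a ^ 2 = - q ^ 2) :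
    ∃ Φ, PreSol q a Φ ∧
      (∀ x l s, x ≠ 0 → (∀ z ∈ l, z ≠ 0) → Φ (x⁻¹ :: l) s = Φ (x :: l) s) ∧
      (∀ l x s, x ≠ 0 → (∀ z ∈ l, z ≠ 0) → Φ (l ++ [x⁻¹]) s = Φ (l ++ [x]) s) ∧
      ∀ (n : ℕ) (s : List Bool), ∃ P : MvPolynomial (Fin (2 * n + 1)) ℂ,
        (∀ i, P.degreeOf i ≤ 2 * n) ∧ ∀ z : Fin (2 * n + 1) → ℂ, (∀ i, z i ≠ 0) →
          (∏ i, z i) ^ n * Φ (List.ofFn z) s = MvPolynomial.eval z P := by
  refine ⟨Phi q a, ⟨?_, ?_, ?_⟩, ?_, ?_, Phi_poly q a⟩
  · intro zs s h
    by_contra hcond
    exact h (Phi_neg hcond)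
  · intro l₁ x y l₂ s c d t hs ht _
    exact Phi_exch hq ha l₁ x y l₂ s c d t hs ht
  · intro l₁ l₂ hl h0
    exact Phi_top hq l₁ l₂ hl h0
  · intro x l s hx _
    exact Phi_even_first hq x l s hx
  · intro l x s hx _
    exact Phi_even_last hq l x s hx

end Pool.Agent.H90.Pre
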