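import Pool.Agent.H75.Exact.Mirror
import Pool.Agent.H75.Exact.Exchange
import Pool.Agent.H75.Exact.Reflect

/-! MP_fe58d8_pr, CAR-B1: the inhomogeneous vector in the multiplicative coordinate. -/

set_option autoImplicit false
open Finset Pool.Agent.H75.Exact

namespace Pool.Agent.H90.Pre

/-- the multiplicative coordinate -/
noncomputable def Zc (q u : ℂ) : ℂ := q * (u - q) / (u - q ^ 2)

/-- the denominator -/
noncomputable def Dc (q u : ℂ) : ℂ := u - q ^ 2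

section basic

variable {q : ℂ} (hq : q ^ 2 + q + 1 = 0)

include hq

lemma q3 : q ^ 3 = 1 := by linear_combination (q - 1) * hq

lemma q_ne : q ≠ 0 := by
  intro h; rw [h] at hq; norm_num at hq

lemma q_ne_one : q ≠ 1 := by
  intro h; rw [h] at hq; norm_num at hq

lemma q2_ne_one : q ^ 2 ≠ 1 := by
  intro h
  have h3 := q3 hq
  apply q_ne_one hq
  linear_combination h3 - q * h

lemma norm_q : ‖q‖ = 1 := by
  have h : ‖q‖ ^ 3 = 1 := by rw [← norm_pow, q3 hq, norm_one]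
  exact (pow_eq_one_iff_of_nonneg (norm_nonneg _) (by norm_num)).1 h

lemma Dc_ne {u : ℂ} (hu : ‖u‖ ≤ 1 / 4) : Dc q u ≠ 0 := by
  intro h
  have h1 : u = q ^ 2 := by unfold Dc at h; linear_combination h
  rw [h1, norm_pow, norm_q hq] at hu
  norm_num at hu

lemma uq_ne {u : ℂ} (hu : ‖u‖ ≤ 1 / 4) : u - q ≠ 0 := by
  intro h
  have h1 : u = q := by linear_combination h
  rw [h1, norm_q hq] at hu
  norm_num at hu

lemma Zc_mul {u : ℂ} (hu : ‖u‖ ≤ 1 / 4) : Zc q u * Dc q u = q * (u - q) := by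
  have h := Dc_ne hq hu
  unfold Zc Dc at *
  field_simp

lemma Zc_ne {u : ℂ} (hu : ‖u‖ ≤ 1 / 4) : Zc q u ≠ 0 := by
  intro h
  have h1 := Zc_mul hq hu
  rw [h, zero_mul] at h1
  exact mul_ne_zero (q_ne hq) (uq_ne hq hu) h1.symm

lemma I1 {u v : ℂ} (hu : ‖u‖ ≤ 1 / 4) (hv : ‖v‖ ≤ 1 / 4) :
    (Zc q v - q ^ 2 * Zc q u) * (Dc q u * Dc q v) = (q - 1) * (1 + v + u * v) := by
  have h1 := Zc_mul hq hu
  have h2 := Zc_mul hq hv
  have h3 := q3 hq
  have : (Zc q v - q ^ 2 * Zc q u) * (Dc q u * Dc q v) =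
      q * (v - q) * Dc q u - q ^ 2 * (q * (u - q)) * Dc q v := by
    rw [← h1, ← h2]; ring
  rw [this]
  unfold Dc
  linear_combination (-(u * v) + (q - 1) * v + q ^ 2 * u + (q - q ^ 3 - 1)) * h3

lemma I2 {u v : ℂ} (hu : ‖u‖ ≤ 1 / 4) (hv : ‖v‖ ≤ 1 / 4) :
    (Zc q u - Zc q v) * (Dc q u * Dc q v) = (q ^ 2 - 1) * (u - v) := by
  have h1 := Zc_mul hq hu
  have h2 := Zc_mul hq hv
  have h3 := q3 hq
  have : (Zc q u - Zc q v) * (Dc q u * Dc q v) =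
      q * (u - q) * Dc q v - q * (v - q) * Dc q u := by
    rw [← h1, ← h2]; ring
  rw [this]
  unfold Dc
  linear_combination (v - u) * h3

lemma I3 {u v : ℂ} (hu : ‖u‖ ≤ 1 / 4) (hv : ‖v‖ ≤ 1 / 4) :
    (Zc q u * Zc q v - q) * (Dc q u * Dc q v) = (q - q ^ 2) * (1 - u * v) := by
  have h1 := Zc_mul hq hu
  have h2 := Zc_mul hq hv
  have h3 := q3 hq
  have : (Zc q u * Zc q v - q) * (Dc q u * Dc q v) =
      q * (u - q) * (q * (v - q)) - q * (Dc q u * Dc q v) := by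
    rw [← h1, ← h2]; ring
  rw [this]
  unfold Dc
  linear_combination (q - q ^ 2) * h3

lemma I4 {u v : ℂ} (hu : ‖u‖ ≤ 1 / 4) (hv : ‖v‖ ≤ 1 / 4) :
    (Zc q u * Zc q v - q ^ 2) * (Dc q u * Dc q v) = (q - 1) * (1 + u + v) := by
  have h1 := Zc_mul hq hu
  have h2 := Zc_mul hq hv
  have h3 := q3 hq
  have : (Zc q u * Zc q v - q ^ 2) * (Dc q u * Dc q v) =
      q * (u - q) * (q * (v - q)) - q ^ 2 * (Dc q u * Dc q v) := by
    rw [← h1, ← h2]; ring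
  rw [this]
  unfold Dc
  linear_combination ((q - 1) * (u + v) + q - q ^ 3 - 1) * h3

lemma I5 {u : ℂ} (hu : ‖u‖ ≤ 1 / 4) :
    Zc q u * Dc q u ^ 2 = q * (1 + u + u ^ 2) := by
  have h1 := Zc_mul hq hu
  have h3 := q3 hq
  have : Zc q u * Dc q u ^ 2 = q * (u - q) * Dc q u := by
    rw [← h1]; ring
  rw [this]
  unfold Dc
  linear_combination (q * (- u)) * hq + q * h3

lemma one_add_ne' {u : ℂ} (hu : ‖u‖ ≤ 1 / 4) : 1 + u ≠ 0 :=
  one_add_ne_zero_of_norm (by linarith)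

lemma Zc_bar {u : ℂ} (hu : ‖u‖ ≤ 1 / 4) : Zc q (bar u) = (Zc q u)⁻¹ := by
  have h0 := Dc_ne hq hu
  have h1 := uq_ne hq hu
  have h2 := one_add_ne_zero_of_norm (w := u) (by linarith)
  have h3 := q3 hq
  have h4 := q_ne hq
  have e1 : bar u - q = q ^ 2 * (u - q ^ 2) / (1 + u) := by
    unfold bar
    field_simp
    linear_combination (- u) * hq + (q) * h3
  have e2 : bar u - q ^ 2 = q * (u - q) / (1 + u) := by
    unfold bar
    field_simp
    linear_combination (- u) * hq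
  unfold Zc
  rw [e1, e2]
  unfold Dc at h0
  field_simp
  linear_combination h3

lemma Dc_bar {u : ℂ} (hu : ‖u‖ ≤ 1 / 4) : Dc q (bar u) = Zc q u * Dc q u / (1 + u) := by
  have h2 := one_add_ne_zero_of_norm (w := u) (by linarith)
  rw [Zc_mul hq hu]
  unfold Dc bar
  field_simp
  linear_combination (- u) * hq

end basic

/-! ### products over pairs -/

/-- product over pairs `c < i < j ≤ m` -/
noncomputable def PP (G : ℕ → ℕ → ℂ) (c m : ℕ) : ℂ :=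
  ∏ a ∈ Icc (c + 1) m, ∏ b ∈ Icc (a + 1) m, G a b

lemma PP_swap {N i : ℕ} (hi : 1 ≤ i) (hiN : i < N) (G : ℕ → ℕ → ℂ) :
    G i (i + 1) * PP (fun a b => G (Equiv.swap i (i + 1) a) (Equiv.swap i (i + 1) b)) 0 N =
      G (i + 1) i * PP G 0 N := by
  unfold PP
  rw [zero_add, Finset.prod_sigma', Finset.prod_sigma']
  set σ := Equiv.swap i (i + 1) with hσ
  have hmem : (⟨i, i + 1⟩ : (_ : ℕ) × ℕ) ∈ (Icc 1 N).sigma (fun a => Icc (a + 1) N) := by
    simp only [mem_sigma, mem_Icc]; omega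
  rw [← Finset.mul_prod_erase _ _ hmem, ← Finset.mul_prod_erase _ (fun x => G x.1 x.2) hmem]
  have h1 : G (σ i) (σ (i + 1)) = G (i + 1) i := by
    rw [hσ, Equiv.swap_apply_left, Equiv.swap_apply_right]
  dsimp only
  rw [h1]
  have hinv : ∀ x, σ (σ x) = x := by intro x; simp [hσ]
  have hm : ∀ p ∈ ((Icc 1 N).sigma (fun a => Icc (a + 1) N)).erase ⟨i, i + 1⟩,
      (⟨σ p.1, σ p.2⟩ : (_ : ℕ) × ℕ) ∈
        ((Icc 1 N).sigma (fun a => Icc (a + 1) N)).erase ⟨i, i + 1⟩ := by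
    rintro ⟨a, b⟩ h
    simp only [mem_erase, mem_sigma, mem_Icc, ne_eq, Sigma.mk.injEq, heq_eq_eq] at h ⊢
    rw [hσ, Equiv.swap_apply_def, Equiv.swap_apply_def]
    split_ifs <;> omega
  have h2 : ∏ x ∈ ((Icc 1 N).sigma (fun a => Icc (a + 1) N)).erase ⟨i, i + 1⟩,
      G (σ x.1) (σ x.2) =
      ∏ x ∈ ((Icc 1 N).sigma (fun a => Icc (a + 1) N)).erase ⟨i, i + 1⟩, G x.1 x.2 := by
    apply Finset.prod_nbij' (fun p => ⟨σ p.1, σ p.2⟩) (fun p => ⟨σ p.1, σ p.2⟩) hm hm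
    · rintro ⟨a, b⟩ _; simp [hinv]
    · rintro ⟨a, b⟩ _; simp [hinv]
    · rintro ⟨a, b⟩ _; rfl
  rw [h2]
  ring

lemma PP_split (n m : ℕ) (G : ℕ → ℕ → ℂ) :
    PP G 0 (n + m) = PP G 0 n * (∏ a ∈ Icc 1 n, ∏ b ∈ Icc (n + 1) (n + m), G a b) *
      PP G n (n + m) := by
  unfold PP
  rw [zero_add]
  exact prod_split_pairs n m G

lemma PP_congr {G G' : ℕ → ℕ → ℂ} {c m : ℕ}
    (h : ∀ a ∈ Icc (c + 1) m, ∀ b ∈ Icc (a + 1) m, G a b = G' a b) : PP G c m = PP G' c m :=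
  Finset.prod_congr rfl fun a ha => Finset.prod_congr rfl fun b hb => h a ha b hb

lemma PP_mul (G G' : ℕ → ℕ → ℂ) (c m : ℕ) :
    PP (fun a b => G a b * G' a b) c m = PP G c m * PP G' c m := by
  unfold PP
  simp only [Finset.prod_mul_distrib]

lemma PP_ne {G : ℕ → ℕ → ℂ} {c m : ℕ}
    (h : ∀ a ∈ Icc (c + 1) m, ∀ b ∈ Icc (a + 1) m, G a b ≠ 0) : PP G c m ≠ 0 :=
  Finset.prod_ne_zero_iff.2 fun a ha => Finset.prod_ne_zero_iff.2 fun b hb => h a ha b hb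

/-- change of the first variable -/
lemma PP_first (n : ℕ) (G G' : ℕ → ℕ → ℂ) (r : ℂ) (h : ∀ a b, a ≠ 1 → b ≠ 1 → G' a b = G a b)
    (h1 : ∀ b ∈ Icc 2 (2 * n + 1), G' 1 b = r * G 1 b) :
    PP G' 0 (2 * n + 1) = r ^ (2 * n) * PP G 0 (2 * n + 1) := by
  rw [show 2 * n + 1 = 1 + 2 * n by ring, PP_split 1 (2 * n), PP_split 1 (2 * n)]
  have e1 : PP G' 1 (1 + 2 * n) = PP G 1 (1 + 2 * n) := by
    apply PP_congr
    intro a ha b hb
    rw [mem_Icc] at ha hb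
    exact h a b (by omega) (by omega)
  have e2 : PP G' 0 1 = 1 := by simp [PP]
  have e3 : PP G 0 1 = 1 := by simp [PP]
  rw [e1, e2, e3, Icc_self, prod_singleton, prod_singleton,
    Finset.prod_congr rfl fun b hb => h1 b (by rw [mem_Icc] at hb ⊢; omega), prod_mul_distrib,
    prod_const, Nat.card_Icc]
  rw [show 1 + 2 * n + 1 - (1 + 1) = 2 * n by omega]
  ring

/-- change of the last variable -/
lemma PP_last (n : ℕ) (G G' : ℕ → ℕ → ℂ) (r : ℂ)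
    (h : ∀ a b, a ≠ 2 * n + 1 → b ≠ 2 * n + 1 → G' a b = G a b)
    (h1 : ∀ a ∈ Icc 1 (2 * n), G' a (2 * n + 1) = r * G a (2 * n + 1)) :
    PP G' 0 (2 * n + 1) = r ^ (2 * n) * PP G 0 (2 * n + 1) := by
  rw [PP_split (2 * n) 1, PP_split (2 * n) 1]
  have e1 : PP G' 0 (2 * n) = PP G 0 (2 * n) := by
    apply PP_congr
    intro a ha b hb
    rw [mem_Icc] at ha hb
    exact h a b (by omega) (by omega)
  have e2 : PP G' (2 * n) (2 * n + 1) = 1 := by simp [PP]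
  have e3 : PP G (2 * n) (2 * n + 1) = 1 := by simp [PP]
  rw [e1, e2, e3]
  simp only [Icc_self, prod_singleton]
  rw [Finset.prod_congr rfl fun b hb => h1 b hb, prod_mul_distrib,
    prod_const, Nat.card_Icc]
  rw [show 2 * n + 1 - 1 = 2 * n by omega]
  ring

/-! ### the normalized vector -/

/-- `(x - q² y)(x y - q)` -/
noncomputable def ff (q x y : ℂ) : ℂ := (x - q ^ 2 * y) * (x * y - q)

/-- the normalized vector -/
noncomputable def Ps (q κ : ℂ) (n : ℕ) (w : ℕ → ℂ) (D : Finset ℕ) : ℂ :=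
  κ * PP (fun a b => ff q (Zc q (w a)) (Zc q (w b))) 0 (2 * n + 1) *
    (∏ i ∈ Icc 1 (2 * n + 1), Dc q (w i)) ^ (2 * n) * ut q (2 * n + 1) n w D

lemma E_mul (q : ℂ) (i : ℕ) (c : ℂ) (Ψ : Finset ℕ → ℂ) (D : Finset ℕ) :
    E q i (fun D => c * Ψ D) D = c * E q i Ψ D := by
  unfold E
  split_ifs <;> ring

lemma norm_lt {N : ℕ} {w : ℕ → ℂ} (hw : Gen N w) {i : ℕ} (h1 : 1 ≤ i) (h2 : i ≤ N) :
    ‖w i‖ ≤ 1 / 4 := hw.1 i (by rw [mem_Icc]; omega)

theorem Ps_exch {q : ℂ} (hq : q ^ 2 + q + 1 = 0) (κ : ℂ) (n : ℕ) (w : ℕ → ℂ)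
    (hw : Gen (2 * n + 1) w) (i : ℕ) (hi : 1 ≤ i) (hiN : i < 2 * n + 1) (D : Finset ℕ)
    (hD : D ⊆ Icc 1 (2 * n + 1)) (hc : D.card = n) :
    (Zc q (w i) - q ^ 2 * Zc q (w (i + 1))) * Ps q κ n (sw w i) D =
      (Zc q (w (i + 1)) - q ^ 2 * Zc q (w i)) * Ps q κ n w D -
        q * (Zc q (w i) - Zc q (w (i + 1))) * E q i (Ps q κ n w) D := by
  have hx := norm_lt hw hi hiN.le
  have hy := norm_lt hw (i := i + 1) (by omega) (by omega)
  have hex := exchange q hq (2 * n + 1) n w hw i hi hiN D hD hc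
  have hP := PP_swap hi hiN (fun a b => ff q (Zc q (w a)) (Zc q (w b)))
  have hprod : ∏ j ∈ Icc 1 (2 * n + 1), Dc q (sw w i j) = ∏ j ∈ Icc 1 (2 * n + 1), Dc q (w j) :=
    prod_Icc_swap hi hiN (fun j => Dc q (w j))
  have hE : E q i (Ps q κ n w) D =
      (κ * PP (fun a b => ff q (Zc q (w a)) (Zc q (w b))) 0 (2 * n + 1) *
        (∏ i ∈ Icc 1 (2 * n + 1), Dc q (w i)) ^ (2 * n)) * E q i (ut q (2 * n + 1) n w) D :=
    E_mul q i _ _ _
  have hsw : ∀ a, sw w i a = w (Equiv.swap i (i + 1) a) := fun a => rfl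
  rw [hE]
  unfold Ps
  simp only [hsw] at hprod ⊢
  rw [hprod]
  change _ * (κ * PP _ 0 (2 * n + 1) * _ * ut q (2 * n + 1) n (sw w i) D) = _
  rw [hex]
  simp only [ff] at hP ⊢
  set x := Zc q (w i) with hxd
  set y := Zc q (w (i + 1)) with hyd
  set P1 := PP (fun a b => (Zc q (w (Equiv.swap i (i + 1) a)) -
    q ^ 2 * Zc q (w (Equiv.swap i (i + 1) b))) *
    (Zc q (w (Equiv.swap i (i + 1) a)) * Zc q (w (Equiv.swap i (i + 1) b)) - q)) 0 (2 * n + 1)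
  set P0 := PP (fun a b => (Zc q (w a) - q ^ 2 * Zc q (w b)) *
    (Zc q (w a) * Zc q (w b) - q)) 0 (2 * n + 1)
  set R := (∏ j ∈ Icc 1 (2 * n + 1), Dc q (w j)) ^ (2 * n)
  set U := ut q (2 * n + 1) n w D
  set V := E q i (ut q (2 * n + 1) n w) D
  have hDD : Dc q (w i) * Dc q (w (i + 1)) ≠ 0 := mul_ne_zero (Dc_ne hq hx) (Dc_ne hq hy)
  have h1 : x * y - q ≠ 0 := by
    intro h
    have h3 := I3 hq hx hy
    rw [← hxd, ← hyd, h, zero_mul] at h3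
    have h4 : (q - q ^ 2) ≠ 0 := by
      intro h5
      have h6 : q * (1 - q) = 0 := by linear_combination h5
      rcases mul_eq_zero.1 h6 with h7 | h7
      · exact q_ne hq h7
      · exact q_ne_one hq (by linear_combination -h7)
    exact mul_ne_zero h4 (gn1 hx hy) h3.symm
  have h2 : (x - q ^ 2 * y) * P1 = (y - q ^ 2 * x) * P0 := by
    apply mul_left_cancel₀ h1
    linear_combination hP
  have h5 : 1 + w (i + 1) + w i * w (i + 1) ≠ 0 := by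
    rw [mul_comm]; exact gn2 hy hx
  have h6 : (y - q ^ 2 * x) * ((w i - w (i + 1)) / (1 + w (i + 1) + w i * w (i + 1))) =
      -q * (x - y) := by
    have h7 := I1 hq hx hy
    have h8 := I2 hq hx hy
    rw [← hxd, ← hyd] at h7 h8
    apply mul_right_cancel₀ hDD
    rw [mul_div_assoc', div_mul_eq_mul_div, div_eq_iff h5]
    linear_combination (w i - w (i + 1)) * h7 + q * (1 + w (i + 1) + w i * w (i + 1)) * h8 +
      (w i - w (i + 1)) * (1 + w (i + 1) + w i * w (i + 1)) * (q3 hq)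
  linear_combination (κ * R * (U + (w i - w (i + 1)) / (1 + w (i + 1) + w i * w (i + 1)) * V)) * h2 +
    (κ * P0 * R * V) * h6

end Pool.Agent.H90.Pre
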