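import Pool.Agent.H90.Pre.Refl

/-! MP_fe58d8_pr, CAR-B1: density of the good points, polynomial lemmas. -/

set_option autoImplicit false
open Finset Pool.Agent.H75.Exact MvPolynomial

namespace Pool.Agent.H90.Pre

/-! ### good points -/

/-- good points -/
def Good (N : ℕ) (w : ℕ → ℂ) : Prop :=
  (∀ i ∈ Icc 1 N, ∃ k : ℕ, w i = 1 / ((k : ℂ) + 16)) ∧ Set.InjOn w (Icc 1 N)

lemma cast16_ne (k : ℕ) : ((k : ℂ) + 16) ≠ 0 := by
  have : ((k + 16 : ℕ) : ℂ) ≠ 0 := Nat.cast_ne_zero.2 (by omega)
  push_cast at this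
  exact this

lemma cast17_ne (k : ℕ) : ((k : ℂ) + 17) ≠ 0 := by
  have : ((k + 17 : ℕ) : ℂ) ≠ 0 := Nat.cast_ne_zero.2 (by omega)
  push_cast at this
  exact this

lemma good_norm (k : ℕ) : ‖(1 : ℂ) / ((k : ℂ) + 16)‖ ≤ 1 / 8 := by
  have h1 : ‖((k : ℂ) + 16)‖ = (k : ℝ) + 16 := by
    have : ((k : ℂ) + 16) = ((k + 16 : ℕ) : ℂ) := by push_cast; ring
    rw [this, Complex.norm_natCast]; push_cast; ring
  rw [norm_div, norm_one, h1]
  apply one_div_le_one_div_of_le (by norm_num)
  have : (0 : ℝ) ≤ k := Nat.cast_nonneg k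
  linarith

lemma good_bar (k : ℕ) : bar (1 / ((k : ℂ) + 16)) = -(1 / ((k : ℂ) + 17)) := by
  have h1 := cast16_ne k
  have h2 := cast17_ne k
  have h3 : (1 + 1 / ((k : ℂ) + 16)) = ((k : ℂ) + 17) / ((k : ℂ) + 16) := by
    field_simp; ring
  unfold bar
  rw [h3]
  field_simp

lemma good_bar_norm (k : ℕ) : ‖bar (1 / ((k : ℂ) + 16))‖ ≤ 1 / 8 := by
  rw [good_bar, norm_neg]
  have := good_norm (k + 1)
  push_cast at this
  rwa [show ((k : ℂ) + 1 + 16) = (k : ℂ) + 17 by ring] at this

lemma good_ne (k l : ℕ) : 1 / ((k : ℂ) + 16) ≠ bar (1 / ((l : ℂ) + 16)) := by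
  rw [good_bar]
  intro h
  have h1 := cast16_ne k
  have h2 := cast17_ne l
  have h3 : ((k : ℂ) + 16) + ((l : ℂ) + 17) = 0 := by
    field_simp at h
    linear_combination h
  have h4 : ((k + l + 33 : ℕ) : ℂ) = 0 := by push_cast; linear_combination h3
  exact absurd (Nat.cast_eq_zero.1 h4) (by omega)

lemma Good.sml {N : ℕ} {w : ℕ → ℂ} (h : Good N w) : Sml N w := by
  refine ⟨fun i hi => ?_, h.2⟩
  obtain ⟨k, hk⟩ := h.1 i hi
  rw [hk]
  exact good_norm k

lemma Good.ne {N : ℕ} {w : ℕ → ℂ} (h : Good N w) {i : ℕ} (hi : i ∈ Icc 1 N) :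
    w i ≠ bar (w i) := by
  obtain ⟨k, hk⟩ := h.1 i hi
  rw [hk]
  exact good_ne k k

lemma Good.upd {N : ℕ} {w : ℕ → ℂ} (h : Good N w) {i : ℕ} (hi : i ∈ Icc 1 N) :
    Sml N (Function.update w i (bar (w i))) := by
  obtain ⟨k, hk⟩ := h.1 i hi
  refine ⟨fun j hj => ?_, fun j hj l hl hjl => ?_⟩
  · by_cases hji : j = i
    · subst hji
      rw [Function.update_self, hk]
      exact good_bar_norm k
    · rw [Function.update_of_ne hji]
      exact h.sml.1 j hj
  · by_cases hji : j = i <;> by_cases hli : l = i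
    · rw [hji, hli]
    · exfalso
      rw [hji, Function.update_self, Function.update_of_ne hli, hk] at hjl
      obtain ⟨m, hm⟩ := h.1 l (by exact_mod_cast hl)
      rw [hm] at hjl
      exact good_ne m k hjl.symm
    · exfalso
      rw [hli, Function.update_self, Function.update_of_ne hji, hk] at hjl
      obtain ⟨m, hm⟩ := h.1 j (by exact_mod_cast hj)
      rw [hm] at hjl
      exact good_ne m k hjl
    · rw [Function.update_of_ne hji, Function.update_of_ne hli] at hjl
      exact h.2 hj hl hjl

lemma Zc_inj {q : ℂ} (hq : q ^ 2 + q + 1 = 0) {u v : ℂ} (hu : ‖u‖ ≤ 1 / 4) (hv : ‖v‖ ≤ 1 / 4)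
    (h : Zc q u = Zc q v) : u = v := by
  have h2 := I2 hq hu hv
  rw [h, sub_self, zero_mul] at h2
  have h3 : q ^ 2 - 1 ≠ 0 := sub_ne_zero.2 (q2_ne_one hq)
  rcases mul_eq_zero.1 h2.symm with h4 | h4
  · exact absurd h4 h3
  · exact sub_eq_zero.1 h4

/-- evaluation at the points `z 1, …, z N` -/
noncomputable def ev {N : ℕ} (z : ℕ → ℂ) (P : MvPolynomial (Fin N) ℂ) : ℂ :=
  eval (fun i : Fin N => z ((i : ℕ) + 1)) P

theorem dens {q : ℂ} (hq : q ^ 2 + q + 1 = 0) (N : ℕ) (P Q : MvPolynomial (Fin N) ℂ)
    (h : ∀ w, Good N w → ev (fun j => Zc q (w j)) P = ev (fun j => Zc q (w j)) Q) : P = Q := by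
  refine MvPolynomial.funext_set
    (fun i : Fin N => Set.range fun k : ℕ => Zc q (1 / (((k * N + i : ℕ) : ℂ) + 16))) ?_ ?_
  · intro i
    have hN : 0 < N := lt_of_le_of_lt (Nat.zero_le _) i.2
    apply Set.infinite_range_of_injective
    intro k l hkl
    have h1 := Zc_inj hq ((good_norm _).trans (by norm_num)) ((good_norm _).trans (by norm_num)) hkl
    have h2 := cast16_ne (k * N + i)
    have h3 := cast16_ne (l * N + i)
    have h4 : (((k * N + i : ℕ) : ℂ) + 16) = (((l * N + i : ℕ) : ℂ) + 16) := by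
      rw [one_div, one_div] at h1
      exact inv_injective h1
    have h5 : (k * N + i : ℕ) = l * N + i := by exact_mod_cast add_right_cancel h4
    exact Nat.eq_of_mul_eq_mul_right hN (by omega)
  · intro x hx
    have hx' : ∀ i : Fin N, ∃ k : ℕ, Zc q (1 / (((k * N + i : ℕ) : ℂ) + 16)) = x i :=
      fun i => hx i (Set.mem_univ _)
    choose k hk using hx'
    set w : ℕ → ℂ := fun j => if hj : 1 ≤ j ∧ j ≤ N then
      1 / (((k ⟨j - 1, by omega⟩ * N + (j - 1) : ℕ) : ℂ) + 16) else 0 with hw
    have hval : ∀ i : Fin N, w ((i : ℕ) + 1) = 1 / (((k i * N + i : ℕ) : ℂ) + 16) := by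
      intro i
      rw [hw]
      beta_reduce
      rw [dif_pos ⟨by omega, i.2⟩]
      congr 3
    have hgood : Good N w := by
      refine ⟨fun i hi => ?_, fun i hi j hj hij => ?_⟩
      · rw [mem_Icc] at hi
        have := hval ⟨i - 1, by omega⟩
        simp only at this
        rw [Nat.sub_add_cancel hi.1] at this
        exact ⟨_, this⟩
      · simp only [coe_Icc, Set.mem_Icc] at hi hj
        have h1 := hval ⟨i - 1, by omega⟩
        have h2 := hval ⟨j - 1, by omega⟩
        simp only at h1 h2
        rw [Nat.sub_add_cancel hi.1] at h1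
        rw [Nat.sub_add_cancel hj.1] at h2
        rw [h1, h2, one_div, one_div] at hij
        have h4 := inv_injective hij
        have h5 : (k ⟨i - 1, by omega⟩ * N + (i - 1) : ℕ) = k ⟨j - 1, by omega⟩ * N + (j - 1) := by
          exact_mod_cast add_right_cancel h4
        have h6 := congrArg (· % N) h5
        simp only [Nat.mul_add_mod_self_right, Nat.mod_eq_of_lt (show i - 1 < N by omega),
          Nat.mod_eq_of_lt (show j - 1 < N by omega)] at h6
        omega
    have hxe : x = fun i : Fin N => Zc q (w ((i : ℕ) + 1)) := by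
      funext i
      rw [hval, hk]
    have := h w hgood
    unfold ev at this
    rw [hxe]
    exact this

/-! ### polynomials -/

section Polys

variable {L : ℕ}

theorem X_sub_X_ne {i j : Fin L} (h : i ≠ j) : (X i - X j : MvPolynomial (Fin L) ℂ) ≠ 0 := by
  intro h'
  exact h (X_injective (sub_eq_zero.mp h'))

theorem dvd_swap (i j : Fin L) (f : MvPolynomial (Fin L) ℂ) :
    (X i - X j : MvPolynomial (Fin L) ℂ) ∣ rename (Equiv.swap i j) f - f := by
  induction f using MvPolynomial.induction_on with
  | C a => simp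
  | add p q hp hq =>
    have : rename (Equiv.swap i j) (p + q) - (p + q) =
        (rename (Equiv.swap i j) p - p) + (rename (Equiv.swap i j) q - q) := by
      rw [map_add]; ring
    rw [this]
    exact dvd_add hp hq
  | mul_X p n hp =>
    have : rename (Equiv.swap i j) (p * X n) - p * X n =
        (rename (Equiv.swap i j) p - p) * X (Equiv.swap i j n) + p * (X (Equiv.swap i j n) - X n) := by
      rw [map_mul, rename_X]; ring
    rw [this]
    refine dvd_add (hp.mul_right _) (Dvd.dvd.mul_left ?_ _)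
    by_cases hi : n = i
    · subst hi
      rw [Equiv.swap_apply_left]
      exact ⟨-1, by ring⟩
    · by_cases hj : n = j
      · subst hj
        rw [Equiv.swap_apply_right]
      · rw [Equiv.swap_apply_of_ne_of_ne hi hj, sub_self]
        exact dvd_zero _

theorem degreeOf_swap {d : ℕ} (i j : Fin L) (f : MvPolynomial (Fin L) ℂ)
    (hf : ∀ k, degreeOf k f ≤ d) (k : Fin L) : degreeOf k (rename (Equiv.swap i j) f) ≤ d := by
  have h2 := degreeOf_rename_of_injective (p := f) (Equiv.swap i j).injective (Equiv.swap i j k)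
  rw [Equiv.swap_apply_self] at h2
  rw [h2]
  exact hf _

theorem exists_quot {d : ℕ} (i j : Fin L) (hij : i ≠ j)
    (f : MvPolynomial (Fin L) ℂ) (hf : ∀ k, degreeOf k f ≤ d) :
    ∃ g : MvPolynomial (Fin L) ℂ, rename (Equiv.swap i j) f - f = (X i - X j) * g ∧
      ∀ k, degreeOf k (X i * g) ≤ d := by
  classical
  obtain ⟨g, hg⟩ := dvd_swap i j f
  refine ⟨g, hg, fun k => ?_⟩
  by_cases hg0 : g = 0
  · rw [hg0, mul_zero, degreeOf_zero]
    exact Nat.zero_le _
  have h1 : ∀ k, degreeOf k (rename (Equiv.swap i j) f - f) ≤ d := by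
    intro k
    exact (degreeOf_sub_le _ _ _).trans (max_le (degreeOf_swap i j f hf k) (hf k))
  have h2 : ∀ k, degreeOf k (X i - X j : MvPolynomial (Fin L) ℂ) + degreeOf k g ≤ d := by
    intro k
    rw [← degreeOf_mul_eq (X_sub_X_ne hij) hg0, ← hg]
    exact h1 k
  have h3 : degreeOf k (X i * g : MvPolynomial (Fin L) ℂ) ≤
      degreeOf k (X i : MvPolynomial (Fin L) ℂ) + degreeOf k g := degreeOf_mul_le _ _ _
  have h5 := h2 k
  by_cases hk : k = i
  · subst hk
    have h7 : (X k : MvPolynomial (Fin L) ℂ) = (X k - X j) + X j := by ring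
    have h8 : degreeOf k (X k : MvPolynomial (Fin L) ℂ) ≤
        max (degreeOf k (X k - X j : MvPolynomial (Fin L) ℂ))
          (degreeOf k (X j : MvPolynomial (Fin L) ℂ)) := by
      conv_lhs => rw [h7]
      exact degreeOf_add_le _ _ _
    simp only [degreeOf_X, if_true, hij, if_false] at h8 h3
    omega
  · simp only [degreeOf_X, hk, if_false] at h3
    omega

theorem exists_rev {d : ℕ} (i : Fin L) (P : MvPolynomial (Fin L) ℂ) (h : degreeOf i P ≤ d) :
    ∃ Q : MvPolynomial (Fin L) ℂ, ∀ z : Fin L → ℂ, z i ≠ 0 →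
      eval z Q = z i ^ d * eval (Function.update z i (z i)⁻¹) P := by
  classical
  refine ⟨∑ m ∈ P.support, monomial (m.update i (d - m i)) (coeff m P), fun z hz => ?_⟩
  conv_rhs => rw [P.as_sum, map_sum, Finset.mul_sum]
  rw [map_sum]
  refine Finset.sum_congr rfl fun m hm => ?_
  have hmi : m i ≤ d := (monomial_le_degreeOf i hm).trans h
  rw [eval_monomial, eval_monomial, Finsupp.prod_fintype _ _ (fun _ => pow_zero _),
    Finsupp.prod_fintype _ _ (fun _ => pow_zero _), ← Finset.mul_prod_erase _ _ (Finset.mem_univ i),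
    ← Finset.mul_prod_erase univ (fun j => Function.update z i (z i)⁻¹ j ^ m j)
      (Finset.mem_univ i)]
  have e1 : ∏ j ∈ univ.erase i, z j ^ (m.update i (d - m i)) j =
      ∏ j ∈ univ.erase i, Function.update z i (z i)⁻¹ j ^ m j := by
    refine Finset.prod_congr rfl fun j hj => ?_
    have hj' := ne_of_mem_erase hj
    rw [Finsupp.coe_update, Function.update_of_ne hj', Function.update_of_ne hj']
  rw [e1, Finsupp.coe_update, Function.update_self, Function.update_self,
    pow_sub₀ _ hz hmi, inv_pow]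
  ring

end Polys

/-! ### induction from the top configuration -/

theorem ind_top (n : ℕ) (p : Finset ℕ → Prop) (top : p (Icc (n + 2) (2 * n + 1)))
    (step : ∀ D : Finset ℕ, D ⊆ Icc 1 (2 * n + 1) → D.card = n → ∀ i, 1 ≤ i → i < 2 * n + 1 →
      i ∉ D → i + 1 ∈ D → p D → p (insert i (D.erase (i + 1)))) :
    ∀ D : Finset ℕ, D ⊆ Icc 1 (2 * n + 1) → D.card = n → p D := by
  have key : ∀ t : ℕ, ∀ D : Finset ℕ, D ⊆ Icc 1 (2 * n + 1) → D.card = n →
      ∑ x ∈ D, (2 * n + 1 - x) = t → p D := by
    intro t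
    induction t using Nat.strong_induction_on with
    | _ t ih =>
      intro D hD hc ht
      by_cases hup : ∃ i ∈ D, i + 1 ≤ 2 * n + 1 ∧ i + 1 ∉ D
      · obtain ⟨i, hi, hiN, hni⟩ := hup
        have hi1 := hD hi
        rw [mem_Icc] at hi1
        set D' := insert (i + 1) (D.erase i) with hD'
        have hsub : D' ⊆ Icc 1 (2 * n + 1) := by
          intro x hx
          rw [hD', mem_insert, mem_erase] at hx
          rcases hx with rfl | hx
          · rw [mem_Icc]; omega
          · exact hD hx.2
        have hni' : i + 1 ∉ D.erase i := fun h => hni (mem_of_mem_erase h)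
        have hcard : D'.card = n := by
          rw [hD', card_insert_of_notMem hni', card_erase_of_mem hi, hc]
          have : 0 < D.card := card_pos.2 ⟨i, hi⟩
          omega
        have hsum : ∑ x ∈ D', (2 * n + 1 - x) < t := by
          rw [← ht, hD', sum_insert hni', ← add_sum_erase D _ hi]
          omega
        have h3 := ih _ hsum D' hsub hcard rfl
        have h4 := step D' hsub hcard i hi1.1 (by omega)
          (by rw [hD', mem_insert, mem_erase]; omega) (by rw [hD']; exact mem_insert_self _ _) h3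
        have h5 : insert i (D'.erase (i + 1)) = D := by
          rw [hD', erase_insert hni', insert_erase hi]
        rwa [h5] at h4
      · push Not at hup
        have htop : D = Icc (n + 2) (2 * n + 1) := by
          have hup2 : ∀ a ∈ D, Icc a (2 * n + 1) ⊆ D := by
            intro a ha
            have : ∀ k, a + k ≤ 2 * n + 1 → a + k ∈ D := by
              intro k
              induction k with
              | zero => intro _; exact ha
              | succ k ihk => intro h; exact hup _ (ihk (by omega)) h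
            intro x hx
            rw [mem_Icc] at hx
            have := this (x - a) (by omega)
            rwa [show a + (x - a) = x by omega] at this
          apply Finset.eq_of_subset_of_card_le
          · intro a ha
            have h1 := Finset.card_le_card (hup2 a ha)
            rw [Nat.card_Icc, hc] at h1
            have h2 := hD ha
            rw [mem_Icc] at h2 ⊢
            omega
          · rw [Nat.card_Icc, hc]; omega
        rw [htop]
        exact top
  exact fun D hD hc => key _ D hD hc rfl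

end Pool.Agent.H90.Pre
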