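import Pool.Agent.H90.Pre.Dens

/-! MP_fe58d8_pr, CAR-B1: the polynomial family. -/

set_option autoImplicit false
open Finset Pool.Agent.H75.Exact MvPolynomial

namespace Pool.Agent.H90.Pre

/-- the variable `z j` -/
noncomputable def XX (N j : ℕ) : MvPolynomial (Fin N) ℂ :=
  if h : 1 ≤ j ∧ j ≤ N then X ⟨j - 1, by omega⟩ else 0

lemma ev_XX {N j : ℕ} (z : ℕ → ℂ) (h1 : 1 ≤ j) (h2 : j ≤ N) : ev z (XX N j) = z j := by
  unfold ev XX
  rw [dif_pos ⟨h1, h2⟩, eval_X]
  simp only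
  rw [Nat.sub_add_cancel h1]

lemma deg_XX (N j : ℕ) (k : Fin N) :
    degreeOf k (XX N j) ≤ if (k : ℕ) + 1 = j then 1 else 0 := by
  classical
  unfold XX
  split_ifs with h1 h2 h2
  · rw [degreeOf_X]; split_ifs <;> omega
  · rw [degreeOf_X, if_neg]
    intro h
    rw [h] at h2
    simp only at h2
    omega
  · rw [degreeOf_zero]; omega
  · rw [degreeOf_zero]

/-- a pair factor -/
noncomputable def pairP (N : ℕ) (c d e : ℂ) (a b : ℕ) : MvPolynomial (Fin N) ℂ :=
  C c * (XX N a - C d * XX N b) * (XX N a * XX N b - C e)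

lemma ev_pairP {N : ℕ} (c d e : ℂ) {a b : ℕ} (z : ℕ → ℂ) (h1 : 1 ≤ a) (h2 : a ≤ N) (h3 : 1 ≤ b)
    (h4 : b ≤ N) : ev z (pairP N c d e a b) = c * (z a - d * z b) * (z a * z b - e) := by
  have e1 := ev_XX z h1 h2
  have e2 := ev_XX z h3 h4
  unfold ev at *
  unfold pairP
  simp only [map_mul, map_sub, eval_C, e1, e2]

lemma deg_pairP (N : ℕ) (c d e : ℂ) (a b : ℕ) (hab : a < b) (k : Fin N) :
    degreeOf k (pairP N c d e a b) ≤ if (k : ℕ) + 1 = a ∨ (k : ℕ) + 1 = b then 2 else 0 := by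
  classical
  have ha := deg_XX N a k
  have hb := deg_XX N b k
  have h1 : degreeOf k (C d * XX N b) ≤ degreeOf k (XX N b) := degreeOf_C_mul_le _ _ _
  have h2 : degreeOf k (XX N a - C d * XX N b) ≤
    max (degreeOf k (XX N a)) (degreeOf k (C d * XX N b)) := degreeOf_sub_le _ _ _
  have h3 : degreeOf k (XX N a * XX N b) ≤ degreeOf k (XX N a) + degreeOf k (XX N b) :=
    degreeOf_mul_le _ _ _
  have h4 : degreeOf k (XX N a * XX N b - C e) ≤
    max (degreeOf k (XX N a * XX N b)) (degreeOf k (C e : MvPolynomial (Fin N) ℂ)) :=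
    degreeOf_sub_le _ _ _
  rw [degreeOf_C] at h4
  have h5 : degreeOf k (C c * (XX N a - C d * XX N b)) ≤ degreeOf k (XX N a - C d * XX N b) :=
    degreeOf_C_mul_le _ _ _
  have h6 : degreeOf k (pairP N c d e a b) ≤
    degreeOf k (C c * (XX N a - C d * XX N b)) + degreeOf k (XX N a * XX N b - C e) :=
    degreeOf_mul_le _ _ _
  split_ifs at ha hb ⊢ <;> omega

lemma deg_pairs {N : ℕ} (k : Fin N) (c m : ℕ) (G : ℕ → ℕ → MvPolynomial (Fin N) ℂ)
    (hG : ∀ a b, a < b →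
      degreeOf k (G a b) ≤ if (k : ℕ) + 1 = a ∨ (k : ℕ) + 1 = b then 2 else 0) :
    degreeOf k (∏ a ∈ Icc (c + 1) m, ∏ b ∈ Icc (a + 1) m, G a b) ≤
      if c + 1 ≤ (k : ℕ) + 1 ∧ (k : ℕ) + 1 ≤ m then 2 * (m - c - 1) else 0 := by
  classical
  set t := (k : ℕ) + 1 with ht
  have h1 : degreeOf k (∏ a ∈ Icc (c + 1) m, ∏ b ∈ Icc (a + 1) m, G a b) ≤
      ∑ a ∈ Icc (c + 1) m, ∑ b ∈ Icc (a + 1) m, if t = a ∨ t = b then 2 else 0 := by
    refine (degreeOf_prod_le _ _ _).trans (Finset.sum_le_sum fun a _ => ?_)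
    refine (degreeOf_prod_le _ _ _).trans (Finset.sum_le_sum fun b hb => ?_)
    rw [mem_Icc] at hb
    exact hG a b (by omega)
  refine h1.trans ?_
  split_ifs with hc
  · have h2 : ∑ a ∈ Icc (c + 1) m, ∑ b ∈ Icc (a + 1) m, (if t = a ∨ t = b then 2 else 0) ≤
        ∑ a ∈ Icc (c + 1) m, ∑ b ∈ Icc (a + 1) m, (if t = a then 2 else 0) +
        ∑ a ∈ Icc (c + 1) m, ∑ b ∈ Icc (a + 1) m, (if t = b then 2 else 0) := by
      rw [← Finset.sum_add_distrib]
      refine Finset.sum_le_sum fun a _ => ?_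
      rw [← Finset.sum_add_distrib]
      refine Finset.sum_le_sum fun b _ => ?_
      split_ifs <;> omega
    have h3 : ∑ a ∈ Icc (c + 1) m, ∑ b ∈ Icc (a + 1) m, (if t = a then 2 else 0) =
        2 * (m - t) := by
      have : ∀ a ∈ Icc (c + 1) m, ∑ b ∈ Icc (a + 1) m, (if t = a then 2 else 0) =
          if t = a then 2 * (m - t) else 0 := by
        intro a ha
        rw [Finset.sum_const, Nat.card_Icc, smul_eq_mul]
        split_ifs with h
        · subst h; rw [mul_comm]; congr 1; omega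
        · rfl
      rw [Finset.sum_congr rfl this, Finset.sum_ite_eq, if_pos (by rw [mem_Icc]; omega)]
    have h4 : ∑ a ∈ Icc (c + 1) m, ∑ b ∈ Icc (a + 1) m, (if t = b then 2 else 0) ≤
        2 * (t - 1 - c) := by
      have e1 : ∀ a ∈ Icc (c + 1) m, ∑ b ∈ Icc (a + 1) m, (if t = b then 2 else 0) =
          if a ∈ Icc (c + 1) (t - 1) then 2 else 0 := by
        intro a ha
        rw [Finset.sum_ite_eq]
        rw [mem_Icc] at ha
        simp only [mem_Icc]
        split_ifs <;> omega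
      rw [Finset.sum_congr rfl e1, ← Finset.sum_filter, Finset.sum_const, smul_eq_mul, mul_comm]
      refine Nat.mul_le_mul_left 2 ?_
      refine (Finset.card_le_card (t := Icc (c + 1) (t - 1)) ?_).trans ?_
      · intro a ha
        exact (mem_filter.1 ha).2
      · rw [Nat.card_Icc]; omega
    omega
  · rw [Nat.le_zero, Finset.sum_eq_zero]
    intro a ha
    rw [mem_Icc] at ha
    apply Finset.sum_eq_zero
    intro b hb
    rw [mem_Icc] at hb
    rw [if_neg]
    omega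

/-- the top polynomial -/
noncomputable def TP (q K : ℂ) (n : ℕ) : MvPolynomial (Fin (2 * n + 1)) ℂ :=
  C K * (∏ a ∈ Icc (0 + 1) (n + 1), ∏ b ∈ Icc (a + 1) (n + 1), pairP (2 * n + 1) 1 (q ^ 2) q a b) *
    (∏ a ∈ Icc (n + 1 + 1) (2 * n + 1), ∏ b ∈ Icc (a + 1) (2 * n + 1),
      pairP (2 * n + 1) (-q) (q ^ 2) (q ^ 2) a b) *
    ∏ a ∈ Icc (n + 2) (2 * n + 1), XX (2 * n + 1) a

lemma ev_prod {N : ℕ} {ι : Type*} (z : ℕ → ℂ) (s : Finset ι) (f : ι → MvPolynomial (Fin N) ℂ) :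
    ev z (∏ i ∈ s, f i) = ∏ i ∈ s, ev z (f i) := map_prod _ _ _

lemma ev_mul {N : ℕ} (z : ℕ → ℂ) (P Q : MvPolynomial (Fin N) ℂ) :
    ev z (P * Q) = ev z P * ev z Q := map_mul _ _ _

lemma ev_add {N : ℕ} (z : ℕ → ℂ) (P Q : MvPolynomial (Fin N) ℂ) :
    ev z (P + Q) = ev z P + ev z Q := map_add _ _ _

lemma ev_sub {N : ℕ} (z : ℕ → ℂ) (P Q : MvPolynomial (Fin N) ℂ) :
    ev z (P - Q) = ev z P - ev z Q := map_sub _ _ _

lemma ev_C {N : ℕ} (z : ℕ → ℂ) (c : ℂ) : ev z (C c : MvPolynomial (Fin N) ℂ) = c := eval_C _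

lemma ev_zero {N : ℕ} (z : ℕ → ℂ) : ev z (0 : MvPolynomial (Fin N) ℂ) = 0 := map_zero _

/-- the value of the top component -/
noncomputable def topv (q K : ℂ) (n : ℕ) (z : ℕ → ℂ) : ℂ :=
  K * PP (fun a b => ff q (z a) (z b)) 0 (n + 1) *
    PP (fun a b => gg q (z a) (z b)) (n + 1) (2 * n + 1) * ∏ a ∈ Icc (n + 2) (2 * n + 1), z a

lemma ev_TP (q K : ℂ) (n : ℕ) (z : ℕ → ℂ) : ev z (TP q K n) = topv q K n z := by
  unfold TP topv
  rw [ev_mul, ev_mul, ev_mul, ev_C, ev_prod, ev_prod, ev_prod]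
  have h1 : ∏ i ∈ Icc (0 + 1) (n + 1), ev z (∏ b ∈ Icc (i + 1) (n + 1),
      pairP (2 * n + 1) 1 (q ^ 2) q i b) = PP (fun a b => ff q (z a) (z b)) 0 (n + 1) := by
    refine Finset.prod_congr rfl fun a ha => ?_
    rw [ev_prod]
    refine Finset.prod_congr rfl fun b hb => ?_
    rw [mem_Icc] at ha hb
    rw [ev_pairP _ _ _ _ (by omega) (by omega) (by omega) (by omega)]
    unfold ff
    ring
  have h2 : ∏ i ∈ Icc (n + 1 + 1) (2 * n + 1), ev z (∏ b ∈ Icc (i + 1) (2 * n + 1),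
      pairP (2 * n + 1) (-q) (q ^ 2) (q ^ 2) i b) =
      PP (fun a b => gg q (z a) (z b)) (n + 1) (2 * n + 1) := by
    refine Finset.prod_congr rfl fun a ha => ?_
    rw [ev_prod]
    refine Finset.prod_congr rfl fun b hb => ?_
    rw [mem_Icc] at ha hb
    rw [ev_pairP _ _ _ _ (by omega) (by omega) (by omega) (by omega)]
    rfl
  rw [h1, h2]
  congr 1
  refine Finset.prod_congr rfl fun a ha => ?_
  rw [mem_Icc] at ha
  exact ev_XX z (by omega) (by omega)

lemma deg_TP (q K : ℂ) (n : ℕ) (k : Fin (2 * n + 1)) : degreeOf k (TP q K n) ≤ 2 * n := by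
  classical
  have h1 := deg_pairs k 0 (n + 1) (pairP (2 * n + 1) 1 (q ^ 2) q)
    (fun a b hab => deg_pairP _ _ _ _ a b hab k)
  have h2 := deg_pairs k (n + 1) (2 * n + 1) (pairP (2 * n + 1) (-q) (q ^ 2) (q ^ 2))
    (fun a b hab => deg_pairP _ _ _ _ a b hab k)
  have h3 : degreeOf k (∏ a ∈ Icc (n + 2) (2 * n + 1), XX (2 * n + 1) a) ≤
      if (k : ℕ) + 1 ∈ Icc (n + 2) (2 * n + 1) then 1 else 0 := by
    refine (degreeOf_prod_le _ _ _).trans ?_
    refine (Finset.sum_le_sum fun a _ => deg_XX (2 * n + 1) a k).trans ?_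
    rw [Finset.sum_ite_eq]
  set A := ∏ a ∈ Icc (0 + 1) (n + 1), ∏ b ∈ Icc (a + 1) (n + 1),
    pairP (2 * n + 1) 1 (q ^ 2) q a b
  set B := ∏ a ∈ Icc (n + 1 + 1) (2 * n + 1), ∏ b ∈ Icc (a + 1) (2 * n + 1),
      pairP (2 * n + 1) (-q) (q ^ 2) (q ^ 2) a b
  set D := ∏ a ∈ Icc (n + 2) (2 * n + 1), XX (2 * n + 1) a
  have e1 : degreeOf k (TP q K n) ≤ degreeOf k (C K * A * B) + degreeOf k D := degreeOf_mul_le _ _ _
  have e2 : degreeOf k (C K * A * B) ≤ degreeOf k (C K * A) + degreeOf k B := degreeOf_mul_le _ _ _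
  have e3 : degreeOf k (C K * A) ≤ degreeOf k A := degreeOf_C_mul_le _ _ _
  simp only [mem_Icc] at h3
  split_ifs at h1 h2 h3 <;> omega

theorem exists_poly {q : ℂ} (hq : q ^ 2 + q + 1 = 0) (κ : ℂ) (n : ℕ) :
    ∀ D : Finset ℕ, D ⊆ Icc 1 (2 * n + 1) → D.card = n →
      ∃ P : MvPolynomial (Fin (2 * n + 1)) ℂ, (∀ k, degreeOf k P ≤ 2 * n) ∧
        ∀ w, Sml (2 * n + 1) w → ev (fun j => Zc q (w j)) P = Ps q κ n w D := by
  classical
  apply ind_top n
  · refine ⟨TP q (κ * K0 q n) n, deg_TP _ _ _, fun w hw => ?_⟩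
    rw [ev_TP, Ps_top hq κ n w hw.gen]
    rfl
  · rintro D hD hc i hi hiN hiD hiD' ⟨P, hP1, hP2⟩
    set i0 : Fin (2 * n + 1) := ⟨i - 1, by omega⟩ with hi0
    set i1 : Fin (2 * n + 1) := ⟨i, hiN⟩ with hi1
    have h01 : i0 ≠ i1 := by
      intro h
      have := congrArg Fin.val h
      simp only [hi0, hi1] at this
      omega
    obtain ⟨g, hg1, hg2⟩ := exists_quot i0 i1 h01 P hP1
    refine ⟨C (-(q ^ 2 - q)) * (X i0 * g) - C q * rename (Equiv.swap i0 i1) P, ?_, ?_⟩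
    · intro k
      refine (degreeOf_sub_le _ _ _).trans (max_le ?_ ?_)
      · exact (degreeOf_C_mul_le _ _ _).trans (hg2 k)
      · exact (degreeOf_C_mul_le _ _ _).trans (degreeOf_swap i0 i1 P hP1 k)
    · intro w hw
      have hsw : ev (fun j => Zc q (w j)) (rename (Equiv.swap i0 i1) P) = Ps q κ n (sw w i) D := by
        rw [← hP2 _ (hw.sw hi hiN)]
        unfold ev
        rw [eval_rename]
        refine congrArg (fun f => eval f P) (funext fun j => ?_)
        have := Exch.sg_succ (2 * n + 1) i hi hiN j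
        unfold Exch.sg at this
        simp only [Function.comp_apply]
        rw [← hi0, ← hi1] at this
        rw [this]
        rfl
      have hX0 : ev (fun j => Zc q (w j)) (X i0 : MvPolynomial (Fin (2 * n + 1)) ℂ) =
          Zc q (w i) := by
        unfold ev
        rw [eval_X, hi0]
        simp only
        rw [Nat.sub_add_cancel hi]
      have hX1 : ev (fun j => Zc q (w j)) (X i1 : MvPolynomial (Fin (2 * n + 1)) ℂ) =
          Zc q (w (i + 1)) := by
        unfold ev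
        rw [eval_X]
      have hgv := congrArg (ev (fun j => Zc q (w j))) hg1
      rw [ev_sub, ev_mul, ev_sub, hX0, hX1, hsw, hP2 w hw] at hgv
      rw [ev_sub, ev_mul, ev_mul, ev_mul, ev_C, ev_C, hX0, hsw]
      have hE := Ps_exch hq κ n w hw.gen i hi hiN D hD hc
      unfold E at hE
      rw [if_neg hiD, if_pos hiD'] at hE
      have hx := norm_lt hw.gen hi hiN.le
      have hy := norm_lt hw.gen (i := i + 1) (by omega) (by omega)
      have hne : Zc q (w i) - Zc q (w (i + 1)) ≠ 0 := by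
        rw [sub_ne_zero]
        intro h
        have h1 := Zc_inj hq hx hy h
        have h2 := hw.2 (by simp only [coe_Icc, Set.mem_Icc]; omega)
          (by simp only [coe_Icc, Set.mem_Icc]; omega) h1
        omega
      have hq0 := q_ne hq
      have h3 := q3 hq
      apply mul_left_cancel₀ hne
      set x := Zc q (w i)
      set y := Zc q (w (i + 1))
      set p := Ps q κ n w D
      set p' := Ps q κ n (sw w i) D
      set r := Ps q κ n w (insert i (D.erase (i + 1)))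
      set γ := ev (fun j => Zc q (w j)) g
      have hqi : q⁻¹ = q ^ 2 := by
        rw [inv_eq_iff_eq_inv]
        apply eq_inv_of_mul_eq_one_left
        linear_combination h3
      rw [hqi] at hE
      linear_combination ((q ^ 2 - q) * x) * hgv - q ^ 2 * hE +
        ((x - y) * r - q * y * p' + (q * x - q ^ 2 * x + q ^ 2 * y) * p) * h3
end Pool.Agent.H90.Pre
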