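import Pool.Agent.H90.Pre.Fam

/-! MP_fe58d8_pr, CAR-B1: the identities of the polynomial family at all points. -/

set_option autoImplicit false
open Finset Pool.Agent.H75.Exact MvPolynomial

namespace Pool.Agent.H90.Pre

open Classical in
/-- the polynomial attached to a configuration -/
noncomputable def PD (q κ : ℂ) (n : ℕ) (D : Finset ℕ) : MvPolynomial (Fin (2 * n + 1)) ℂ :=
  if h : ∃ P : MvPolynomial (Fin (2 * n + 1)) ℂ, (∀ k, degreeOf k P ≤ 2 * n) ∧
        ∀ w, Sml (2 * n + 1) w → ev (fun j => Zc q (w j)) P = Ps q κ n w D then h.choose else 0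

lemma PD_deg (q κ : ℂ) (n : ℕ) (D : Finset ℕ) (k : Fin (2 * n + 1)) :
    degreeOf k (PD q κ n D) ≤ 2 * n := by
  unfold PD
  split_ifs with h
  · exact h.choose_spec.1 k
  · rw [degreeOf_zero]; omega

section

variable {q : ℂ} (hq : q ^ 2 + q + 1 = 0) (κ : ℂ) {n : ℕ} {D : Finset ℕ}
  (hD : D ⊆ Icc 1 (2 * n + 1)) (hc : D.card = n)

include hq hD hc

lemma PD_val {w : ℕ → ℂ} (hw : Sml (2 * n + 1) w) :
    ev (fun j => Zc q (w j)) (PD q κ n D) = Ps q κ n w D := by
  have h := exists_poly hq κ n D hD hc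
  unfold PD
  rw [dif_pos h]
  exact h.choose_spec.2 w hw

lemma PD_E {w : ℕ → ℂ} (hw : Sml (2 * n + 1) w) {i : ℕ} (hi : 1 ≤ i) (hiN : i < 2 * n + 1) :
    E q i (fun D => ev (fun j => Zc q (w j)) (PD q κ n D)) D = E q i (Ps q κ n w) D := by
  unfold E
  have h0 := PD_val hq κ hD hc hw
  by_cases h1 : i ∈ D <;> by_cases h2 : i + 1 ∈ D
  · rw [if_pos h1, if_pos h2, if_pos h1, if_pos h2]
  · rw [if_pos h1, if_neg h2, if_pos h1, if_neg h2]
    beta_reduce
    rw [h0]
    congr 1
    apply PD_val hq κ _ _ hw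
    · intro x hx
      rw [mem_insert, mem_erase] at hx
      rcases hx with rfl | hx
      · rw [mem_Icc]; omega
      · exact hD hx.2
    · rw [card_insert_of_notMem (fun h => h2 (mem_of_mem_erase h)), card_erase_of_mem h1, hc]
      have : 0 < D.card := card_pos.2 ⟨i, h1⟩
      omega
  · rw [if_neg h1, if_pos h2, if_neg h1, if_pos h2]
    beta_reduce
    rw [h0]
    congr 1
    apply PD_val hq κ _ _ hw
    · intro x hx
      rw [mem_insert, mem_erase] at hx
      rcases hx with rfl | hx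
      · rw [mem_Icc]; omega
      · exact hD hx.2
    · rw [card_insert_of_notMem (fun h => h1 (mem_of_mem_erase h)), card_erase_of_mem h2, hc]
      have : 0 < D.card := card_pos.2 ⟨_, h2⟩
      omega
  · rw [if_neg h1, if_neg h2, if_neg h1, if_neg h2]

omit hq hD hc in
/-- the polynomial version of `E` -/
noncomputable def EP (q κ : ℂ) (n i : ℕ) (D : Finset ℕ) : MvPolynomial (Fin (2 * n + 1)) ℂ :=
  if i ∈ D then
    if i + 1 ∈ D then 0 else C (-q) * PD q κ n D + PD q κ n (insert (i + 1) (D.erase i))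
  else
    if i + 1 ∈ D then PD q κ n (insert i (D.erase (i + 1))) - C q⁻¹ * PD q κ n D else 0

omit hq hD hc in
lemma ev_EP (z : ℕ → ℂ) (i : ℕ) :
    ev z (EP q κ n i D) = E q i (fun D => ev z (PD q κ n D)) D := by
  unfold EP E
  split_ifs
  · exact ev_zero z
  · rw [ev_add, ev_mul, ev_C]
  · rw [ev_sub, ev_mul, ev_C]
  · exact ev_zero z

theorem PD_exch {i : ℕ} (hi : 1 ≤ i) (hiN : i < 2 * n + 1) (z : ℕ → ℂ) :
    (z i - q ^ 2 * z (i + 1)) * ev (sw z i) (PD q κ n D) =
      (z (i + 1) - q ^ 2 * z i) * ev z (PD q κ n D) -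
        q * (z i - z (i + 1)) * E q i (fun D => ev z (PD q κ n D)) D := by
  set σ : Equiv.Perm (Fin (2 * n + 1)) := Exch.sg (2 * n + 1) i hi hiN with hσ
  have hren : ∀ (z : ℕ → ℂ) (P : MvPolynomial (Fin (2 * n + 1)) ℂ),
      ev z (rename σ P) = ev (sw z i) P := by
    intro z P
    unfold ev
    rw [eval_rename]
    refine congrArg (fun f => eval f P) (funext fun j => ?_)
    have := Exch.sg_succ (2 * n + 1) i hi hiN j
    simp only [Function.comp_apply]
    rw [hσ, this]
    rfl
  have key : (XX (2 * n + 1) i - C (q ^ 2) * XX (2 * n + 1) (i + 1)) * rename σ (PD q κ n D) =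
      (XX (2 * n + 1) (i + 1) - C (q ^ 2) * XX (2 * n + 1) i) * PD q κ n D -
        C q * (XX (2 * n + 1) i - XX (2 * n + 1) (i + 1)) * EP q κ n i D := by
    apply dens hq
    intro w hw
    have hs := hw.sml
    simp only [ev_mul, ev_sub, ev_C, hren, ev_EP, ev_XX _ hi hiN.le,
      ev_XX _ (show 1 ≤ i + 1 by omega) (show i + 1 ≤ 2 * n + 1 by omega)]
    rw [PD_E hq κ hD hc hs hi hiN, PD_val hq κ hD hc hs]
    have h1 := PD_val hq κ hD hc (hs.sw hi hiN)
    have h2 : sw (fun j => Zc q (w j)) i = fun j => Zc q (sw w i j) := rfl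
    rw [h2, h1]
    exact Ps_exch hq κ n w hs.gen i hi hiN D hD hc
  have := congrArg (ev z) key
  simpa only [ev_mul, ev_sub, ev_C, hren, ev_EP, ev_XX _ hi hiN.le,
      ev_XX _ (show 1 ≤ i + 1 by omega) (show i + 1 ≤ 2 * n + 1 by omega)] using this

theorem PD_left (z : Fin (2 * n + 1) → ℂ) (hz : z 0 ≠ 0) :
    eval z (PD q κ n D) = z 0 ^ (2 * n) * eval (Function.update z 0 (z 0)⁻¹) (PD q κ n D) := by
  obtain ⟨Q, hQ⟩ := exists_rev 0 (PD q κ n D) (PD_deg q κ n D 0)
  have key : Q = PD q κ n D := by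
    apply dens hq
    intro w hw
    have hs := hw.sml
    have hm : 1 ∈ Icc 1 (2 * n + 1) := by rw [mem_Icc]; omega
    have hx := norm_lt hs.gen (le_refl 1) (by omega)
    rw [PD_val hq κ hD hc hs]
    have h1 := Ps_left hq κ n w hs.gen (hw.upd hm).gen (hw.ne hm) D hD hc
    rw [← h1, ← PD_val hq κ hD hc (hw.upd hm)]
    unfold ev
    have h0 : ((0 : Fin (2 * n + 1)) : ℕ) = 0 := rfl
    rw [hQ _ (by simpa only [h0, zero_add] using Zc_ne hq hx)]
    simp only [h0, zero_add]
    congr 1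
    refine congrArg (fun f => eval f (PD q κ n D)) (funext fun j => ?_)
    by_cases hj : j = 0
    · subst hj
      rw [Function.update_self, h0, zero_add, Function.update_self, Zc_bar hq hx]
    · have hj' : (j : ℕ) + 1 ≠ 1 := by
        intro h
        apply hj
        apply Fin.ext
        rw [h0]; omega
      rw [Function.update_of_ne hj, Function.update_of_ne hj']
  rw [← hQ z hz, key]

theorem PD_right (z : Fin (2 * n + 1) → ℂ) (hz : z (Fin.last (2 * n)) ≠ 0) :
    eval z (PD q κ n D) = z (Fin.last (2 * n)) ^ (2 * n) *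
      eval (Function.update z (Fin.last (2 * n)) (z (Fin.last (2 * n)))⁻¹) (PD q κ n D) := by
  obtain ⟨Q, hQ⟩ := exists_rev (Fin.last (2 * n)) (PD q κ n D) (PD_deg q κ n D _)
  have key : Q = PD q κ n D := by
    apply dens hq
    intro w hw
    have hs := hw.sml
    have hm : 2 * n + 1 ∈ Icc 1 (2 * n + 1) := by rw [mem_Icc]; omega
    have hx := norm_lt hs.gen (i := 2 * n + 1) (by omega) le_rfl
    rw [PD_val hq κ hD hc hs]
    have h1 := Ps_right hq κ n w hs (hw.upd hm) (hw.ne hm) D hD hc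
    rw [← h1, ← PD_val hq κ hD hc (hw.upd hm)]
    unfold ev
    rw [hQ _ (by simpa only [Fin.val_last] using Zc_ne hq hx)]
    simp only [Fin.val_last]
    congr 1
    refine congrArg (fun f => eval f (PD q κ n D)) (funext fun j => ?_)
    by_cases hj : j = Fin.last (2 * n)
    · subst hj
      rw [Function.update_self, Fin.val_last, Function.update_self, Zc_bar hq hx]
    · have hj' : (j : ℕ) + 1 ≠ 2 * n + 1 := by
        intro h
        apply hj
        apply Fin.ext
        rw [Fin.val_last]; omega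
      rw [Function.update_of_ne hj, Function.update_of_ne hj']
  rw [← hQ z hz, key]

end

theorem PD_top {q : ℂ} (hq : q ^ 2 + q + 1 = 0) (κ : ℂ) (n : ℕ) (z : ℕ → ℂ) :
    ev z (PD q κ n (Icc (n + 2) (2 * n + 1))) = topv q (κ * K0 q n) n z := by
  have key : PD q κ n (Icc (n + 2) (2 * n + 1)) = TP q (κ * K0 q n) n := by
    apply dens hq
    intro w hw
    rw [PD_val hq κ _ _ hw.sml, Ps_top hq κ n w hw.sml.gen, ev_TP]
    · rfl
    · intro x; simp only [mem_Icc]; omega
    · rw [Nat.card_Icc]; omega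
  rw [key, ev_TP]

end Pool.Agent.H90.Pre
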