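import Pool.Agent.H90.Pre.Alg

/-! MP_fe58d8_pr, CAR-B1: reflections and the top component of the normalized vector. -/

set_option autoImplicit false
open Finset Pool.Agent.H75.Exact

namespace Pool.Agent.H90.Pre

lemma prod_upd {N i : ℕ} (hi : i ∈ Icc 1 N) (f : ℂ → ℂ) (w : ℕ → ℂ) (x r : ℂ)
    (h : f x = r * f (w i)) :
    ∏ j ∈ Icc 1 N, f (Function.update w i x j) = r * ∏ j ∈ Icc 1 N, f (w j) := by
  rw [← Finset.mul_prod_erase _ _ hi, ← Finset.mul_prod_erase _ (fun j => f (w j)) hi,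
    Function.update_self, h, mul_assoc]
  congr 2
  exact Finset.prod_congr rfl fun j hj => by rw [Function.update_of_ne (ne_of_mem_erase hj)]

/-- `ff` after inversion of the first variable -/
lemma ff_inv_left {q : ℂ} (hq : q ^ 2 + q + 1 = 0) {x : ℂ} (hx : x ≠ 0) (y : ℂ) :
    ff q x⁻¹ y = (x⁻¹) ^ 2 * ff q x y := by
  unfold ff
  field_simp
  linear_combination (x ^ 2 * y - y) * (q3 hq)

theorem Ps_left {q : ℂ} (hq : q ^ 2 + q + 1 = 0) (κ : ℂ) (n : ℕ) (w : ℕ → ℂ)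
    (hw : Gen (2 * n + 1) w) (hw' : Gen (2 * n + 1) (Function.update w 1 (bar (w 1))))
    (h1 : w 1 ≠ bar (w 1)) (D : Finset ℕ) (hD : D ⊆ Icc 1 (2 * n + 1)) (hc : D.card = n) :
    Zc q (w 1) ^ (2 * n) * Ps q κ n (Function.update w 1 (bar (w 1))) D = Ps q κ n w D := by
  have hx := norm_lt hw (le_refl 1) (by omega)
  have hz := Zc_ne hq hx
  have hu := one_add_ne_zero_of_norm (w := w 1) (by linarith)
  unfold Ps
  rw [left_reflection q hq (2 * n + 1) n (Or.inl rfl) w hw hw' h1 D hD hc]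
  rw [prod_upd (by rw [mem_Icc]; omega) (Dc q) w (bar (w 1)) (Zc q (w 1) / (1 + w 1))
    (by rw [Dc_bar hq hx]; ring)]
  rw [PP_first n (fun a b => ff q (Zc q (w a)) (Zc q (w b)))
    (fun a b => ff q (Zc q (Function.update w 1 (bar (w 1)) a))
      (Zc q (Function.update w 1 (bar (w 1)) b))) (((Zc q (w 1))⁻¹) ^ 2)
    (fun a b ha hb => by rw [Function.update_of_ne ha, Function.update_of_ne hb])
    (fun b hb => by
      rw [mem_Icc] at hb
      rw [Function.update_self, Function.update_of_ne (by omega), Zc_bar hq hx,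
        ff_inv_left hq hz])]
  rw [mul_pow, div_pow, ← pow_mul, inv_pow]
  have e : Zc q (w 1) ^ (2 * (2 * n)) = Zc q (w 1) ^ (2 * n) * Zc q (w 1) ^ (2 * n) := by
    rw [← pow_add]; congr 1; ring
  rw [e]
  have h2 : Zc q (w 1) ^ (2 * n) ≠ 0 := pow_ne_zero _ hz
  have h3 : (1 + w 1) ^ (2 * n) ≠ 0 := pow_ne_zero _ hu
  field_simp

lemma sm2' {x y : ℂ} (hx : ‖x‖ ≤ 1 / 4) (hy : ‖y‖ ≤ 1 / 4) : 1 + x + y ≠ 0 := by
  rw [add_assoc]
  exact one_add_ne_zero_of_norm (by linarith [norm_add_le x y])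

section id2

variable {q : ℂ} (hq : q ^ 2 + q + 1 = 0)

include hq

lemma xyq_ne {u v : ℂ} (hu : ‖u‖ ≤ 1 / 4) (hv : ‖v‖ ≤ 1 / 4) : Zc q u * Zc q v - q ≠ 0 := by
  intro h
  have h3 := I3 hq hu hv
  rw [h, zero_mul] at h3
  have h4 : (q - q ^ 2) ≠ 0 := by
    intro h5
    have h6 : q * (1 - q) = 0 := by linear_combination h5
    rcases mul_eq_zero.1 h6 with h7 | h7
    · exact q_ne hq h7
    · exact q_ne_one hq (by linear_combination -h7)
  exact mul_ne_zero h4 (gn1 hu hv) h3.symm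

lemma xyq2_ne {u v : ℂ} (hu : ‖u‖ ≤ 1 / 4) (hv : ‖v‖ ≤ 1 / 4) :
    Zc q u * Zc q v - q ^ 2 ≠ 0 := by
  intro h
  have h3 := I4 hq hu hv
  rw [h, zero_mul] at h3
  have h4 : (q - 1) ≠ 0 := sub_ne_zero.2 (q_ne_one hq)
  exact mul_ne_zero h4 (sm2' hu hv) h3.symm

lemma gz {u v : ℂ} (hu : ‖u‖ ≤ 1 / 4) (hv : ‖v‖ ≤ 1 / 4) :
    (1 - u * v) / (1 + u + v) * (Zc q u * Zc q v - q ^ 2) = -q ^ 2 * (Zc q u * Zc q v - q) := by
  have h1 := I3 hq hu hv
  have h2 := I4 hq hu hv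
  have h3 := mul_ne_zero (Dc_ne hq hu) (Dc_ne hq hv)
  apply mul_right_cancel₀ h3
  rw [div_mul_eq_mul_div, div_mul_eq_mul_div, div_eq_iff (sm2' hu hv)]
  linear_combination (1 - u * v) * h2 + q ^ 2 * (1 + u + v) * h1 -
    (1 - u * v) * (1 + u + v) * (q - 1) * (q3 hq)

lemma gz' {u v : ℂ} (hu : ‖u‖ ≤ 1 / 4) (hv : ‖v‖ ≤ 1 / 4) :
    (1 + u + v) / (1 - u * v) * (Zc q u * Zc q v - q) = -q * (Zc q u * Zc q v - q ^ 2) := by
  have h1 := I3 hq hu hv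
  have h2 := I4 hq hu hv
  have h3 := mul_ne_zero (Dc_ne hq hu) (Dc_ne hq hv)
  apply mul_right_cancel₀ h3
  rw [div_mul_eq_mul_div, div_mul_eq_mul_div, div_eq_iff (gn1 hu hv)]
  linear_combination (1 + u + v) * h1 + q * (1 - u * v) * h2

/-- the pair factor of the mirror identity -/
lemma pair_last {u v : ℂ} (hu : ‖u‖ ≤ 1 / 4) (hv : ‖v‖ ≤ 1 / 4) (hv' : ‖bar v‖ ≤ 1 / 4) :
    ff q (Zc q u) (Zc q (bar v)) * ((1 - u * v) / (1 + u + v)) =
      ((Zc q v)⁻¹) ^ 2 * (ff q (Zc q u) (Zc q v) * ((1 - u * bar v) / (1 + u + bar v))) := by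
  have h1 := gz hq hu hv
  have h2 := gz hq hu hv'
  have hv0 := Zc_ne hq hv
  have n1 := xyq2_ne hq hu hv
  have n2 := xyq2_ne hq hu hv'
  rw [Zc_bar hq hv] at h2 n2 ⊢
  unfold ff
  set x := Zc q u
  set y := Zc q v
  set g := (1 - u * v) / (1 + u + v)
  set g' := (1 - u * bar v) / (1 + u + bar v)
  have h3 : g' * (x - q ^ 2 * y) = -q ^ 2 * (x - q * y) := by
    field_simp at h2
    linear_combination h2
  have h4 : (x - q ^ 2 * y⁻¹) * (x * y⁻¹ - q) = (y⁻¹) ^ 2 * ((x * y - q ^ 2) * (x - q * y)) := by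
    field_simp
  rw [h4]
  linear_combination (y⁻¹) ^ 2 * (x - q * y) * h1 - (y⁻¹) ^ 2 * (x * y - q) * h3

end id2

lemma zst_update {N : ℕ} (hN : 1 ≤ N) (w : ℕ → ℂ) :
    zst N (Function.update w N (bar (w N))) =
      Function.update (zst N w) 1 (bar (zst N w 1)) := by
  funext j
  unfold zst
  by_cases hj : j = 1
  · subst hj
    simp
  · rw [Function.update_of_ne hj, Function.update_of_ne (by omega)]

theorem Ps_right {q : ℂ} (hq : q ^ 2 + q + 1 = 0) (κ : ℂ) (n : ℕ) (w : ℕ → ℂ)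
    (hw : Sml (2 * n + 1) w)
    (hw' : Sml (2 * n + 1) (Function.update w (2 * n + 1) (bar (w (2 * n + 1)))))
    (h1 : w (2 * n + 1) ≠ bar (w (2 * n + 1))) (D : Finset ℕ) (hD : D ⊆ Icc 1 (2 * n + 1))
    (hc : D.card = n) :
    Zc q (w (2 * n + 1)) ^ (2 * n) *
      Ps q κ n (Function.update w (2 * n + 1) (bar (w (2 * n + 1)))) D = Ps q κ n w D := by
  set N := 2 * n + 1 with hN
  have hmemN : N ∈ Icc 1 N := by rw [mem_Icc]; omega
  have hx := norm_lt hw.gen (i := N) (by omega) le_rfl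
  have hx8 := hw.1 N hmemN
  have hx' : ‖bar (w N)‖ ≤ 1 / 8 := by
    have := hw'.1 N hmemN
    rwa [Function.update_self] at this
  have hx'4 : ‖bar (w N)‖ ≤ 1 / 4 := by linarith
  have hz := Zc_ne hq hx
  have hu := one_add_ne_zero_of_norm (w := w N) (by linarith)
  have hu' := one_add_ne_zero_of_norm (w := bar (w N)) (by linarith)
  set w' := Function.update w N (bar (w N)) with hw'd
  -- mirror at both points
  have m1 := mirror_of_exchange q hq (exchange q hq) n w hw.1 hw.2 D hD hc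
  have m2 := mirror_of_exchange q hq (exchange q hq) n w' hw'.1 hw'.2 D hD hc
  have hzst1 : zst N w 1 = bar (w N) := by
    unfold zst
    rw [show N + 1 - 1 = N by omega]
  have hg := hw'.gen_zst
  rw [hw'd, zst_update (by omega)] at hg
  have hne : zst N w 1 ≠ bar (zst N w 1) := by
    rw [hzst1]
    have hb := bar_inj (x := w N) (y := bar (w N)) hx8 hx'
    exact fun h => h1 (hb h)
  have m3 := left_reflection q hq N (n + 1) (Or.inr (by omega)) (zst N w) hw.gen_zst hg hne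
    (Dst N D) (Dst_subset _ _) (Dst_card hD hc)
  rw [← zst_update (by omega), ← hw'd, hzst1] at m3
  rw [← hN] at m1 m2
  rw [m1, m2] at m3
  -- the symmetric factors
  set G := fun v : ℕ → ℂ => PP (fun a b => (1 - v a * v b) / (1 + v a + v b)) 0 N with hG
  have hgf : ∀ v : ℕ → ℂ, gfac n v = (-1) ^ (n + 1) *
      (∏ i ∈ Icc 1 N, (1 + v i) ^ (2 * n + 2) / (1 + v i + v i ^ 2)) * G v := fun v => rfl
  have hS : ∏ i ∈ Icc 1 N, (1 + w' i) ^ (2 * n + 2) / (1 + w' i + w' i ^ 2) =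
      ((1 + w N) ^ (4 * n + 2))⁻¹ *
        ∏ i ∈ Icc 1 N, (1 + w i) ^ (2 * n + 2) / (1 + w i + w i ^ 2) := by
    apply prod_upd hmemN (fun u => (1 + u) ^ (2 * n + 2) / (1 + u + u ^ 2)) w (bar (w N))
    have e1 : 1 + bar (w N) = (1 + w N)⁻¹ := by
      unfold bar; field_simp; ring
    beta_reduce
    rw [bar4 hx8, e1]
    have h5 := sm5 hx8
    have e2 : (1 + w N) ^ (4 * n + 2) = (1 + w N) ^ (2 * n) * (1 + w N) ^ (2 * n + 2) := by
      rw [← pow_add]; congr 1; ring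
    have e3 : (1 + w N) ^ (2 * n + 2) = (1 + w N) ^ (2 * n) * (1 + w N) ^ 2 := by
      rw [← pow_add]
    rw [inv_pow, e2, e3]
    have h6 : (1 + w N) ^ (2 * n) ≠ 0 := pow_ne_zero _ hu
    field_simp
  rw [hgf w, hgf w', hS] at m3
  have hSne : ∏ i ∈ Icc 1 N, (1 + w i) ^ (2 * n + 2) / (1 + w i + w i ^ 2) ≠ 0 :=
    Finset.prod_ne_zero_iff.2 fun a ha => div_ne_zero (pow_ne_zero _ (sm1 (hw.1 a ha)))
      (sm5 (hw.1 a ha))
  have hs1 : ((-1 : ℂ) ^ (n + 1)) ≠ 0 := pow_ne_zero _ (by norm_num)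
  have hFG : PP (fun a b => ff q (Zc q (w' a)) (Zc q (w' b))) 0 N * G w =
      (((Zc q (w N))⁻¹) ^ 2) ^ (2 * n) *
        (PP (fun a b => ff q (Zc q (w a)) (Zc q (w b))) 0 N * G w') := by
    rw [hG]
    beta_reduce
    rw [← PP_mul, ← PP_mul]
    refine PP_last n _ _ _ ?_ ?_
    · intro a b ha hb
      beta_reduce
      rw [hw'd, Function.update_of_ne ha, Function.update_of_ne hb]
    · intro a ha
      rw [mem_Icc] at ha
      beta_reduce
      have e1 : w' a = w a := Function.update_of_ne (by omega) _ _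
      have e2 : w' (2 * n + 1) = bar (w N) := Function.update_self _ _ _
      rw [e1, e2]
      exact pair_last hq (norm_lt hw.gen (by omega) (by omega)) hx hx'4
  have hGne : ∀ v : ℕ → ℂ, Sml N v → G v ≠ 0 := by
    intro v hv
    apply PP_ne
    intro a ha b hb
    rw [mem_Icc] at ha hb
    have i1 := norm_lt hv.gen (i := a) (by omega) (by omega)
    have i2 := norm_lt hv.gen (i := b) (by omega) (by omega)
    exact div_ne_zero (gn1 i1 i2) (sm2' i1 i2)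
  have hG1 := hGne w hw
  have hG2 := hGne w' hw'
  have hDp : ∏ i ∈ Icc 1 N, Dc q (w' i) = Zc q (w N) / (1 + w N) * ∏ i ∈ Icc 1 N, Dc q (w i) :=
    prod_upd hmemN (Dc q) w (bar (w N)) (Zc q (w N) / (1 + w N)) (by rw [Dc_bar hq hx]; ring)
  unfold Ps
  rw [← hN, hDp]
  set S0 := ∏ i ∈ Icc 1 N, (1 + w i) ^ (2 * n + 2) / (1 + w i + w i ^ 2)
  set F0 := PP (fun a b => ff q (Zc q (w a)) (Zc q (w b))) 0 N
  set F1 := PP (fun a b => ff q (Zc q (w' a)) (Zc q (w' b))) 0 N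
  set U0 := ut q N n w D
  set U1 := ut q N n w' D
  have e1 : 1 + bar (w N) = (1 + w N)⁻¹ := by
    unfold bar; field_simp; ring
  have hU : G w' * U1 = (1 + w N) ^ (2 * n) * (G w * U0) := by
    rw [e1] at m3
    have e2 : (1 + w N) ^ (4 * n + 2) = (1 + w N) ^ (2 * n) * (1 + w N) ^ (2 * n + 2) := by
      rw [← pow_add]; congr 1; ring
    have e3 : ((1 + w N)⁻¹) ^ (2 * (n + 1)) = ((1 + w N) ^ (2 * n + 2))⁻¹ := by
      rw [inv_pow]; rfl
    rw [e2, e3] at m3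
    have h6 : (1 + w N) ^ (2 * n) ≠ 0 := pow_ne_zero _ hu
    have h7 : (1 + w N) ^ (2 * n + 2) ≠ 0 := pow_ne_zero _ hu
    have h8 : (-1 : ℂ) ^ (n + 1) * S0 * ((1 + w N) ^ (2 * n + 2))⁻¹ ≠ 0 :=
      mul_ne_zero (mul_ne_zero hs1 hSne) (inv_ne_zero h7)
    apply mul_left_cancel₀ h8
    rw [mul_inv] at m3
    have h9 : (1 + w N) ^ (2 * n) * ((1 + w N) ^ (2 * n))⁻¹ = 1 := mul_inv_cancel₀ h6
    linear_combination (1 + w N) ^ (2 * n) * m3 -
      ((-1 : ℂ) ^ (n + 1) * S0 * ((1 + w N) ^ (2 * n + 2))⁻¹ * G w' * U1) * h9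
  apply mul_right_cancel₀ (mul_ne_zero hG1 hG2)
  have e4 : (((Zc q (w N))⁻¹) ^ 2) ^ (2 * n) =
      (Zc q (w N) ^ (2 * n))⁻¹ * (Zc q (w N) ^ (2 * n))⁻¹ := by
    rw [← pow_mul, inv_pow, ← mul_inv, ← pow_add]; congr 2; ring
  rw [e4] at hFG
  have h10 : Zc q (w N) ^ (2 * n) ≠ 0 := pow_ne_zero _ hz
  have h11 : (1 + w N) ^ (2 * n) ≠ 0 := pow_ne_zero _ hu
  rw [mul_pow, div_pow]
  have h12 : Zc q (w N) ^ (2 * n) * Zc q (w N) ^ (2 * n) * (F1 * G w) = F0 * G w' := by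
    rw [hFG]; field_simp
  have h13 : (Zc q (w N) ^ (2 * n) / (1 + w N) ^ (2 * n)) * (1 + w N) ^ (2 * n) =
      Zc q (w N) ^ (2 * n) := by field_simp
  set Z := Zc q (w N) ^ (2 * n)
  set Y := (1 + w N) ^ (2 * n)
  set R := (∏ i ∈ Icc 1 N, Dc q (w i)) ^ (2 * n)
  linear_combination (κ * Z * (F1 * G w) * (Z / Y) * R) * hU +
    (κ * Z * (F1 * G w) * R * G w * U0) * h13 + (κ * R * G w * U0) * h12

/-! ### the top component -/

/-- the pair factor of the top component -/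
noncomputable def gg (q x y : ℂ) : ℂ := -q * (x - q ^ 2 * y) * (x * y - q ^ 2)

/-- the constant of the top component -/
noncomputable def K0 (q : ℂ) (n : ℕ) : ℂ :=
  (-q ^ 2) ^ n * (3 * q ^ 2) ^ (n * (n + 1)) * PP (fun _ _ => (-1 : ℂ)) (n + 1) (2 * n + 1)

lemma K0_ne {q : ℂ} (hq : q ^ 2 + q + 1 = 0) (n : ℕ) : K0 q n ≠ 0 := by
  have h := q_ne hq
  unfold K0
  refine mul_ne_zero (mul_ne_zero (pow_ne_zero _ ?_) (pow_ne_zero _ ?_)) (PP_ne ?_)
  · exact neg_ne_zero.2 (pow_ne_zero _ h)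
  · exact mul_ne_zero (by norm_num) (pow_ne_zero _ h)
  · intro _ _ _ _; norm_num

theorem Ps_top {q : ℂ} (hq : q ^ 2 + q + 1 = 0) (κ : ℂ) (n : ℕ) (w : ℕ → ℂ)
    (hw : Gen (2 * n + 1) w) :
    Ps q κ n w (Icc (n + 2) (2 * n + 1)) =
      κ * K0 q n * PP (fun a b => ff q (Zc q (w a)) (Zc q (w b))) 0 (n + 1) *
        PP (fun a b => gg q (Zc q (w a)) (Zc q (w b))) (n + 1) (2 * n + 1) *
        ∏ a ∈ Icc (n + 2) (2 * n + 1), Zc q (w a) := by
  have hN2 : 2 * n + 1 = (n + 1) + n := by ring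
  have hg2 : Gen ((n + 1) + n) w := by rw [← hN2]; exact hw
  have hq3 := q3 hq
  have hs2 : ∀ a ∈ Icc (n + 1 + 1) (n + 1 + n),
      (w a - q) * (w a ^ 2 - 1) *
        (w a - q) ^ (((n + 1 + n : ℕ) : ℤ) - 2 * (n : ℤ)) *
        (w a - q ^ 2) ^ (((n + 1 + n : ℕ) : ℤ) - 2 * (n : ℤ) + 1) =
          (w a ^ 2 - 1) * (1 + w a + w a ^ 2) ^ 2 := by
    intro a _
    have e1 : ((n + 1 + n : ℕ) : ℤ) - 2 * (n : ℤ) = 1 := by push_cast; ring
    rw [e1]
    have e2 : (w a - q) * (w a - q ^ 2) = 1 + w a + w a ^ 2 := by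
      linear_combination (-w a) * hq + hq3
    have e3 : (w a - q ^ 2) ^ ((1 : ℤ) + 1) = (w a - q ^ 2) ^ 2 := by
      norm_cast
    rw [e3, zpow_one, ← e2]
    ring
  have t2 := top_form q (n + 1) n w hg2 (fun a => (1 + w a + w a ^ 2) ^ 2) hs2
  rw [← hN2] at t2
  have hn : ∀ a, 1 ≤ a → a ≤ 2 * n + 1 → ‖w a‖ ≤ 1 / 4 := fun a h1 h2 => norm_lt hw h1 h2
  have T1 : ∏ a ∈ Icc (n + 1 + 1) (2 * n + 1), -((1 + w a + w a ^ 2) ^ 2 / (1 + w a + w a ^ 2)) =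
      (-q ^ 2) ^ n * (∏ a ∈ Icc (n + 2) (2 * n + 1), Zc q (w a)) *
        (∏ a ∈ Icc (n + 2) (2 * n + 1), Dc q (w a)) ^ 2 := by
    have e : (-q ^ 2) ^ n = ∏ _a ∈ Icc (n + 2) (2 * n + 1), (-q ^ 2) := by
      rw [Finset.prod_const, Nat.card_Icc]; congr 1; omega
    rw [e, ← Finset.prod_pow, ← Finset.prod_mul_distrib, ← Finset.prod_mul_distrib]
    refine Finset.prod_congr rfl fun a ha => ?_
    rw [mem_Icc] at ha
    have h5 := I5 hq (hn a (by omega) (by omega))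
    have h6 : 1 + w a + w a ^ 2 ≠ 0 := by
      have := gn2 (hn a (by omega) (by omega)) (hn a (by omega) (by omega))
      rwa [← sq] at this
    rw [sq (1 + w a + w a ^ 2), mul_div_assoc, div_self h6]
    linear_combination (q ^ 2) * h5 + (1 + w a + w a ^ 2) * hq3
  have T2 : (∏ a ∈ Icc (n + 1 + 1) (2 * n + 1), ∏ b ∈ Icc (a + 1) (2 * n + 1),
      -((1 + w a + w b) / (1 - w a * w b))) *
      PP (fun a b => ff q (Zc q (w a)) (Zc q (w b))) (n + 1) (2 * n + 1) =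
      PP (fun _ _ => (-1 : ℂ)) (n + 1) (2 * n + 1) *
        PP (fun a b => gg q (Zc q (w a)) (Zc q (w b))) (n + 1) (2 * n + 1) := by
    change PP (fun a b => -((1 + w a + w b) / (1 - w a * w b))) (n + 1) (2 * n + 1) * _ = _
    rw [← PP_mul, ← PP_mul]
    apply PP_congr
    intro a ha b hb
    rw [mem_Icc] at ha hb
    have h5 := gz' hq (hn a (by omega) (by omega)) (hn b (by omega) (by omega))
    unfold ff gg
    linear_combination (-(Zc q (w a) - q ^ 2 * Zc q (w b))) * h5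
  have T3 : (∏ a ∈ Icc (n + 1 + 1) (2 * n + 1), ∏ j ∈ Icc 1 (n + 1),
      1 / ((1 - w a * w j) * (1 + w j + w j * w a))) *
      (∏ a ∈ Icc 1 (n + 1), ∏ b ∈ Icc (n + 2) (2 * n + 1), ff q (Zc q (w a)) (Zc q (w b))) *
      ((∏ a ∈ Icc (n + 2) (2 * n + 1), Dc q (w a)) ^ (2 * (n + 1)) *
        (∏ a ∈ Icc 1 (n + 1), Dc q (w a)) ^ (2 * n)) =
      (3 * q ^ 2) ^ (n * (n + 1)) := by
    have g0 : (3 * q ^ 2) ^ (n * (n + 1)) =
        ∏ _x ∈ Icc 1 (n + 1), ∏ _y ∈ Icc (n + 2) (2 * n + 1), (3 * q ^ 2) := by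
      rw [Finset.prod_const, Finset.prod_const, Nat.card_Icc, Nat.card_Icc, ← pow_mul]
      congr 1
      rw [show 2 * n + 1 + 1 - (n + 2) = n by omega, show n + 1 + 1 - 1 = n + 1 by omega]
    have g1 : (∏ x ∈ Icc 1 (n + 1), Dc q (w x)) ^ (2 * n) =
        ∏ x ∈ Icc 1 (n + 1), ∏ _y ∈ Icc (n + 2) (2 * n + 1), Dc q (w x) ^ 2 := by
      rw [← Finset.prod_pow]
      refine Finset.prod_congr rfl fun x _ => ?_
      rw [Finset.prod_const, Nat.card_Icc, ← pow_mul]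
      congr 2; omega
    have g2 : (∏ y ∈ Icc (n + 2) (2 * n + 1), Dc q (w y)) ^ (2 * (n + 1)) =
        ∏ _x ∈ Icc 1 (n + 1), ∏ y ∈ Icc (n + 2) (2 * n + 1), Dc q (w y) ^ 2 := by
      rw [Finset.prod_const, Nat.card_Icc, Finset.prod_pow, ← pow_mul]
      rfl
    rw [Finset.prod_comm, g0, g1, g2]
    simp only [← Finset.prod_mul_distrib]
    refine Finset.prod_congr rfl fun x hx => Finset.prod_congr rfl fun y hy => ?_
    rw [mem_Icc] at hx hy
    have hx' := hn x (by omega) (by omega)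
    have hy' := hn y (by omega) (by omega)
    have i1 := I1 hq hy' hx'
    have i3 := I3 hq hx' hy'
    have n1 := gn1 hy' hx'
    have n2 := gn2 hx' hy'
    unfold ff
    rw [div_mul_eq_mul_div, div_mul_eq_mul_div, div_eq_iff (mul_ne_zero n1 n2)]
    have : 1 * ((Zc q (w x) - q ^ 2 * Zc q (w y)) * (Zc q (w x) * Zc q (w y) - q)) *
        (Dc q (w y) ^ 2 * Dc q (w x) ^ 2) =
        ((Zc q (w x) - q ^ 2 * Zc q (w y)) * (Dc q (w y) * Dc q (w x))) *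
        ((Zc q (w x) * Zc q (w y) - q) * (Dc q (w x) * Dc q (w y))) := by ring
    rw [this, i1, i3]
    linear_combination (-(q * (1 + w x + w y * w x) * (1 - w x * w y))) * hq
  unfold Ps
  rw [t2, T1]
  have P1 := PP_split (n + 1) n (fun a b => ff q (Zc q (w a)) (Zc q (w b)))
  have P2 := prod_split_Icc (n + 1) n (fun a => Dc q (w a))
  rw [← hN2] at P1 P2
  rw [P1, P2, mul_pow]
  unfold K0
  set A1 := PP (fun a b => ff q (Zc q (w a)) (Zc q (w b))) 0 (n + 1)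
  set A2 := ∏ a ∈ Icc 1 (n + 1), ∏ b ∈ Icc (n + 1 + 1) (2 * n + 1), ff q (Zc q (w a)) (Zc q (w b))
  set A3 := PP (fun a b => ff q (Zc q (w a)) (Zc q (w b))) (n + 1) (2 * n + 1)
  set B1 := ∏ a ∈ Icc 1 (n + 1), Dc q (w a)
  set B2 := ∏ a ∈ Icc (n + 1 + 1) (2 * n + 1), Dc q (w a)
  set C1 := ∏ a ∈ Icc (n + 1 + 1) (2 * n + 1), ∏ b ∈ Icc (a + 1) (2 * n + 1),
      -((1 + w a + w b) / (1 - w a * w b))
  set C2 := ∏ a ∈ Icc (n + 1 + 1) (2 * n + 1), ∏ j ∈ Icc 1 (n + 1),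
      1 / ((1 - w a * w j) * (1 + w j + w j * w a))
  set C3 := ∏ a ∈ Icc (n + 1 + 1) (2 * n + 1), Zc q (w a)
  set E1 := PP (fun _ _ => (-1 : ℂ)) (n + 1) (2 * n + 1)
  set E2 := PP (fun a b => gg q (Zc q (w a)) (Zc q (w b))) (n + 1) (2 * n + 1)
  have h1 : B2 ^ (2 * (n + 1)) = B2 ^ (2 * n) * B2 ^ 2 := by rw [← pow_add]; rfl
  change C2 * A2 * (B2 ^ (2 * (n + 1)) * B1 ^ (2 * n)) = _ at T3
  rw [h1] at T3
  change κ * (A1 * A2 * A3) * (B1 ^ (2 * n) * B2 ^ (2 * n)) *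
    ((-q ^ 2) ^ n * C3 * B2 ^ 2 * C1 * C2) = κ * ((-q ^ 2) ^ n * (3 * q ^ 2) ^ (n * (n + 1)) * E1) *
      A1 * E2 * C3
  linear_combination (κ * A1 * A2 * (B1 ^ (2 * n) * B2 ^ (2 * n)) * (-q ^ 2) ^ n * C3 * B2 ^ 2 *
    C2) * T2 + (κ * A1 * (-q ^ 2) ^ n * C3 * (E1 * E2)) * T3

end Pool.Agent.H90.Pre
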